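import Pool.Agent.P.MP_323ce2_nt.QS.St

/-! Separation of variables by a double average. -/

namespace Pool.Agent.P.MP_323ce2_nt.QS

open Finset Pool.Agent.P.MP_26a8c3_nt.QO Pool.Agent.P.MP_26a8c3_nt.QL
open scoped Classical ComplexConjugate

namespace Avg

open MeasureTheory

theorem id1 (h : ℝ → ℂ) (A x : ℝ) (h1 : A - 1 ≤ x) (h2 : x ≤ A) :
    ∫ u in (0:ℝ)..1, h (x - u) = ∫ r in (A - 2)..A, (Set.Icc (x - 1) x).indicator h r := by
  rw [intervalIntegral.integral_comp_sub_left h x, intervalIntegral.integral_of_le (by linarith),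
    intervalIntegral.integral_of_le (by linarith), ← integral_Icc_eq_integral_Ioc,
    ← integral_Icc_eq_integral_Ioc, setIntegral_indicator measurableSet_Icc,
    Set.inter_eq_right.2 (Set.Icc_subset_Icc (by linarith) h2), sub_zero]

theorem ii (h : ℝ → ℂ) (hh : Continuous h) (a b c d : ℝ) :
    IntervalIntegrable ((Set.Icc c d).indicator h) volume a b :=
  ⟨(hh.intervalIntegrable a b).1.indicator measurableSet_Icc,
    (hh.intervalIntegrable a b).2.indicator measurableSet_Icc⟩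

theorem lemB (S : Finset O) (x : O → ℝ) (h : O → ℝ → ℂ) (A B : ℝ)
    (hx : ∀ n ∈ S, A - 1 ≤ x n ∧ x n ≤ A) (hh : ∀ n ∈ S, Continuous (h n))
    (hB : ∀ r, A - 2 ≤ r → r ≤ A →
      ‖∑ n ∈ S.filter (fun n => x n - 1 ≤ r ∧ r ≤ x n), h n r‖ ≤ B) :
    ‖∫ u in (0:ℝ)..1, ∑ n ∈ S, h n (x n - u)‖ ≤ 2 * B := by
  have e1 : ∫ u in (0:ℝ)..1, ∑ n ∈ S, h n (x n - u) =
      ∫ r in (A - 2)..A, ∑ n ∈ S, (Set.Icc (x n - 1) (x n)).indicator (h n) r := by
    rw [intervalIntegral.integral_finsetSum, intervalIntegral.integral_finsetSum]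
    · exact sum_congr rfl fun n hn => id1 (h n) A (x n) (hx n hn).1 (hx n hn).2
    · exact fun n hn => ii _ (hh n hn) _ _ _ _
    · exact fun n hn => ((hh n hn).comp (continuous_const.sub continuous_id)).intervalIntegrable _ _
  rw [e1]
  have h3 := intervalIntegral.norm_integral_le_of_norm_le_const (a := A - 2) (b := A) (C := B)
    (f := fun r => ∑ n ∈ S, (Set.Icc (x n - 1) (x n)).indicator (h n) r) (by
      intro r hr
      rw [Set.uIoc_of_le (by linarith)] at hr
      have := hB r hr.1.le hr.2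
      rw [sum_filter] at this
      refine le_of_eq_of_le (congrArg norm (sum_congr rfl fun n _ => ?_)) this
      rw [Set.indicator_apply]
      simp only [Set.mem_Icc])
  have e2 : |A - (A - 2)| = 2 := by
    rw [show A - (A - 2) = 2 by ring]; norm_num
  rw [e2] at h3
  linarith

theorem lemC (F : ℝ → ℂ) (hF : Continuous F) (X : ℝ)
    (h : ∀ u, 0 ≤ u → u ≤ 1 → X ≤ (F u).re) : X ≤ (∫ u in (0:ℝ)..1, F u).re := by
  have e : (∫ u in (0:ℝ)..1, F u).re = ∫ u in (0:ℝ)..1, (F u).re :=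
    (Complex.reCLM.intervalIntegral_comp_comm (hF.intervalIntegrable 0 1)).symm
  rw [e]
  have h2 := intervalIntegral.integral_mono_on (μ := volume) (f := fun _ => X)
    (g := fun u => (F u).re) (zero_le_one' ℝ) (continuous_const.intervalIntegrable _ _)
    ((Complex.continuous_re.comp hF).intervalIntegrable _ _) (fun u hu => h u hu.1 hu.2)
  simpa using h2

end Avg

theorem pAvg : S_Avg := by
  intro S x g A X B hx hg hX hB
  let H : O → ℝ → ℂ := fun n y => ∫ v in (0:ℝ)..1, ∑ n' ∈ S, g n n' (y + (x n' - v))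
  have hH : ∀ n ∈ S, Continuous (H n) := by
    intro n hn
    refine intervalIntegral.continuous_parametric_intervalIntegral_of_continuous'
      (f := fun (y v : ℝ) => ∑ n' ∈ S, g n n' (y + (x n' - v))) ?_ 0 1
    refine continuous_finsetSum _ fun n' hn' => (hg n hn n' hn').comp ?_
    fun_prop
  have hc : ∀ n ∈ S, ∀ y : ℝ, Continuous fun v : ℝ => ∑ n' ∈ S, g n n' (y + (x n' - v)) := by
    intro n hn y
    refine continuous_finsetSum _ fun n' hn' => (hg n hn n' hn').comp ?_
    fun_prop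
  have h1 : ∀ u, 0 ≤ u → u ≤ 1 → X ≤ (∑ n ∈ S, H n (x n - u)).re := by
    intro u hu0 hu1
    have e : ∑ n ∈ S, H n (x n - u) =
        ∫ v in (0:ℝ)..1, ∑ n ∈ S, ∑ n' ∈ S, g n n' (x n - u + (x n' - v)) := by
      rw [intervalIntegral.integral_finsetSum]
      exact fun n hn => (hc n hn _).intervalIntegrable _ _
    rw [e]
    exact Avg.lemC _ (continuous_finsetSum _ fun n hn => hc n hn _) X
      fun v hv0 hv1 => hX u v hu0 hu1 hv0 hv1
  have h2 : X ≤ (∫ u in (0:ℝ)..1, ∑ n ∈ S, H n (x n - u)).re :=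
    Avg.lemC _ (continuous_finsetSum _ fun n hn =>
      (hH n hn).comp (continuous_const.sub continuous_id)) X h1
  have h3 : ‖∫ u in (0:ℝ)..1, ∑ n ∈ S, H n (x n - u)‖ ≤ 2 * (2 * B) := by
    refine Avg.lemB S x H A (2 * B) hx hH fun r hr0 hr1 => ?_
    have e : ∑ n ∈ S.filter (fun n => x n - 1 ≤ r ∧ r ≤ x n), H n r =
        ∫ v in (0:ℝ)..1, ∑ n' ∈ S, (fun s => ∑ n ∈ S.filter (fun n => x n - 1 ≤ r ∧ r ≤ x n),
          g n n' (r + s)) (x n' - v) := by
      rw [← intervalIntegral.integral_finsetSum]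
      · refine intervalIntegral.integral_congr fun v _ => ?_
        exact sum_comm
      · exact fun n hn => (hc n (mem_filter.1 hn).1 _).intervalIntegrable _ _
    rw [e]
    refine Avg.lemB S x (fun n' s => ∑ n ∈ S.filter (fun n => x n - 1 ≤ r ∧ r ≤ x n),
      g n n' (r + s)) A B hx (fun n' hn' => ?_) fun s hs0 hs1 => ?_
    · refine continuous_finsetSum _ fun n hn => (hg n (mem_filter.1 hn).1 n' hn').comp ?_
      fun_prop
    · rw [sum_comm]
      exact hB r s hr0 hr1 hs0 hs1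
  have h4 := Complex.re_le_norm (∫ u in (0:ℝ)..1, ∑ n ∈ S, H n (x n - u))
  linarith

end Pool.Agent.P.MP_323ce2_nt.QS
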