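import Pool.Agent.P.MP_323ce2_nt.QS.St

/-! The bilinear bound for the error of the small squarefree parts. -/

namespace Pool.Agent.P.MP_323ce2_nt.QS

open Finset Pool.Agent.P.MP_26a8c3_nt.QO Pool.Agent.P.MP_26a8c3_nt.QL
open scoped Classical ComplexConjugate

namespace Bil

lemma c3 {α β γ : Type*} (A : Finset α) (B : Finset β) (C : Finset γ) (f : α → β → γ → ℂ) :
    ∑ a ∈ A, ∑ b ∈ B, ∑ c ∈ C, f a b c = ∑ c ∈ C, ∑ b ∈ B, ∑ a ∈ A, f a b c := by
  rw [sum_comm, sum_congr rfl fun b _ => sum_comm, sum_comm]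

lemma c5 (S W D : Finset O) (g : O → O → O → O → O → ℂ) :
    ∑ n ∈ S, ∑ n' ∈ S, ∑ v ∈ W, ∑ d ∈ D, ∑ e ∈ D, g n n' v d e =
      ∑ d ∈ D, ∑ e ∈ D, ∑ v ∈ W, ∑ n ∈ S, ∑ n' ∈ S, g n n' v d e := by
  have h := c3 (S ×ˢ S) W (D ×ˢ D) fun p v q => g p.1 p.2 v q.1 q.2
  simpa only [sum_product] using h

lemma pd {R : ℝ} {S : Finset O} (hS : In S R) {n : O} (hn : n ∈ S) (f : O → ℂ) :
    ∑ d ∈ pdiv n, f d = ∑ d ∈ (ball R).filter Primary, if d ∣ n then f d else 0 := by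
  rw [← sum_filter]
  refine sum_congr (Finset.ext fun e => ?_) fun _ _ => rfl
  simp only [mem_filter, Db.mem_pdiv (Db.sqo_ne (hS n hn).1), Db.mem_ball]
  refine ⟨fun h => ⟨⟨le_trans ?_ (hS n hn).2, h.1⟩, h.2⟩, fun h => ⟨h.1.2, h.2⟩⟩
  exact_mod_cast N_le_of_dvd h.2 (Db.sqo_ne (hS n hn).1)

lemma swap {R : ℝ} {S : Finset O} (hS : In S R) (W : Finset O) (a b : O → ℂ)
    (φ : O → O → O → ℂ) :
    ∑ n ∈ S, ∑ n' ∈ S, a n * b n' * ∑ v ∈ W, eta n v * eta n' v *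
      ∑ d ∈ pdiv n, ∑ e ∈ pdiv n', φ v d e =
    ∑ d ∈ (ball R).filter Primary, ∑ e ∈ (ball R).filter Primary, ∑ v ∈ W,
      φ v d e * (U (S.filter (d ∣ ·)) a v * U (S.filter (e ∣ ·)) b v) := by
  have h := c5 S W ((ball R).filter Primary) fun n n' v d e =>
    φ v d e * ((if d ∣ n then a n * eta n v else 0) * if e ∣ n' then b n' * eta n' v else 0)
  refine Eq.trans ?_ (h.trans ?_)
  · refine sum_congr rfl fun n hn => sum_congr rfl fun n' hn' => ?_
    rw [mul_sum]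
    refine sum_congr rfl fun v _ => ?_
    rw [pd hS hn, mul_sum, mul_sum]
    refine sum_congr rfl fun d _ => ?_
    split_ifs with h1
    · rw [pd hS hn', mul_sum, mul_sum]
      refine sum_congr rfl fun e _ => ?_
      split_ifs with h2
      · ring
      · simp
    · simp
  · refine sum_congr rfl fun d _ => sum_congr rfl fun e _ => sum_congr rfl fun v _ => ?_
    rw [U, U, sum_filter, sum_filter, sum_mul_sum, mul_sum]
    exact sum_congr rfl fun n _ => (mul_sum _ _ _).symm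

lemma in_quo {R : ℝ} {S : Finset O} (hS : In S R) {d : O} (hd : Primary d) :
    In ((S.filter (d ∣ ·)).image (quo · d)) (R / N d) := by
  intro n hn
  obtain ⟨m, hm, rfl⟩ := mem_image.1 hn
  rw [mem_filter] at hm
  refine ⟨Db.sqo_quo (hS m hm.1).1 hd hm.2, ?_⟩
  rw [le_div_iff₀ (N_pos_real hd.ne_zero)]
  have h := (hS m hm.1).2
  rw [← Db.mul_quo hm.2, map_mul, Nat.cast_mul, mul_comm] at h
  exact h

lemma U_le {R : ℝ} {S : Finset O} (hS : In S R) {d : O} (hd : Primary d) (a : O → ℂ) (v : O) :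
    ‖U (S.filter (d ∣ ·)) a v‖ ≤
      ‖U ((S.filter (d ∣ ·)).image (quo · d)) (fun n => a (d * n)) v‖ := by
  have h : U (S.filter (d ∣ ·)) a v =
      eta d v * U ((S.filter (d ∣ ·)).image (quo · d)) (fun n => a (d * n)) v := by
    rw [U, U, Db.sum_quo S d fun m _ => a m * eta m v, mul_sum]
    refine sum_congr rfl fun n hn => ?_
    rw [eta_mul_left hd.ne_zero (Db.sqo_ne (in_quo hS hd n hn).1)]
    ring
  rw [h, norm_mul]
  exact mul_le_of_le_one_left (norm_nonneg _) (ok.le _ _)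

lemma amgm {x y s t : ℝ} (hs : 0 < s) (ht : 0 < t) :
    x * y ≤ s / t * x ^ 2 + t / s * y ^ 2 := by
  have h : s / t * x ^ 2 + t / s * y ^ 2 - x * y =
      ((s * x - t * y / 2) ^ 2 + 3 / 4 * (t * y) ^ 2) / (s * t) := by field_simp; ring
  have h2 : 0 ≤ ((s * x - t * y / 2) ^ 2 + 3 / 4 * (t * y) ^ 2) / (s * t) := by positivity
  linarith

end Bil

open Bil in
theorem pBil (h : S_One) : S_Bil := by
  intro ε hε
  obtain ⟨C, hC, h⟩ := h
  have hδ : 0 < ε / 3 := by positivity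
  obtain ⟨D, hD, hd⟩ := ok.dvb (ε / 3) hδ
  have hz : 1 ≤ zt (1 + ε / 3) := one_le_zt (by linarith)
  refine ⟨C * (1 + 2 / (ε / 3)) * D * zt (1 + ε / 3), by positivity, ?_⟩
  intro K R β m Y R1 M S a b φ hK hR hKR hβ hm hY hR1 hRR hy hg hS hφ
  have hRp : 0 < R := by linarith
  set r : ℝ := R ^ (ε / 3) with hr
  have hr1 : 1 ≤ r := Real.one_le_rpow hR hδ.le
  have hlK : 0 ≤ Real.log K := Real.log_nonneg hK
  set Q : ℝ := C * (1 + Real.log K) * β * (m * Y + R1) with hQ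
  have hQ0 : 0 ≤ Q := by positivity
  have one : ∀ (d : O) (a : O → ℂ) (ψ : O → ℝ), Primary d → (∀ v, 0 ≤ ψ v) →
      (∀ v, v ≠ 0 → ψ v ≤ 1 ∧ ψ v * (√(N v) * N d) ≤ Y) →
      ∑ v ∈ Wk K, ψ v * ‖U (S.filter (d ∣ ·)) a v‖ ^ 2 ≤
        Q / N d * MP_26a8c3_nt.QL.nr (S.filter (d ∣ ·)) a := by
    intro d a ψ hd h0 hψ
    have h1 := h K R β m Y R1 (N d) M _ (fun n => a (d * n)) ψ hK hβ hm hY hR1 hRR
      (one_le_N hd.ne_zero) hy hg (in_quo hS hd) hψ
    have h2 : MP_26a8c3_nt.QL.nr ((S.filter (d ∣ ·)).image (quo · d)) (fun n => a (d * n)) =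
        MP_26a8c3_nt.QL.nr (S.filter (d ∣ ·)) a := (Db.sum_quo S d fun m _ => ‖a m‖ ^ 2).symm
    rw [h2] at h1
    refine le_trans (sum_le_sum fun v _ => mul_le_mul_of_nonneg_left ?_ (h0 v)) h1
    exact pow_le_pow_left₀ (norm_nonneg _) (U_le hS hd a v) 2
  have two : ∀ d ∈ (ball R1).filter Primary, ∀ e ∈ (ball R1).filter Primary,
      ‖∑ v ∈ Wk K, φ v d e * (U (S.filter (d ∣ ·)) a v * U (S.filter (e ∣ ·)) b v)‖ ≤
        Q * (MP_26a8c3_nt.QL.nr (S.filter (d ∣ ·)) a * (N e : ℝ)⁻¹ +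
          (N d : ℝ)⁻¹ * MP_26a8c3_nt.QL.nr (S.filter (e ∣ ·)) b) := by
    intro d hd e he
    have pd := (mem_filter.1 hd).2
    have pe := (mem_filter.1 he).2
    have nd := N_pos_real pd.ne_zero
    have ne := N_pos_real pe.ne_zero
    have h1 := one d a (fun v => ‖φ v d e‖) pd (fun _ => norm_nonneg _) fun v hv =>
      ⟨(hφ v d e hv pd.ne_zero pe.ne_zero).1, (hφ v d e hv pd.ne_zero pe.ne_zero).2.1⟩
    have h2 := one e b (fun v => ‖φ v d e‖) pe (fun _ => norm_nonneg _) fun v hv =>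
      ⟨(hφ v d e hv pd.ne_zero pe.ne_zero).1, (hφ v d e hv pd.ne_zero pe.ne_zero).2.2⟩
    refine (norm_sum_le _ _).trans ?_
    calc _ ≤ ∑ v ∈ Wk K, ((N d : ℝ) / N e * (‖φ v d e‖ * ‖U (S.filter (d ∣ ·)) a v‖ ^ 2) +
          (N e : ℝ) / N d * (‖φ v d e‖ * ‖U (S.filter (e ∣ ·)) b v‖ ^ 2)) := by
          refine sum_le_sum fun v _ => ?_
          rw [norm_mul, norm_mul]
          refine (mul_le_mul_of_nonneg_left (amgm nd ne) (norm_nonneg _)).trans (le_of_eq ?_)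
          ring
      _ ≤ (N d : ℝ) / N e * (Q / N d * MP_26a8c3_nt.QL.nr (S.filter (d ∣ ·)) a) +
          (N e : ℝ) / N d * (Q / N e * MP_26a8c3_nt.QL.nr (S.filter (e ∣ ·)) b) := by
          rw [sum_add_distrib, ← mul_sum, ← mul_sum]
          gcongr
      _ = _ := by field_simp
  have hdv : ∀ n ∈ S, dv n ≤ D * r := fun n hn =>
    (hd n (Db.sqo_ne (hS n hn).1)).trans (mul_le_mul_of_nonneg_left
      (Real.rpow_le_rpow (Nat.cast_nonneg _) ((hS n hn).2.trans hRR) hδ.le) hD.le)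
  have ha := Db.sum_nr hS a hdv
  have hb := Db.sum_nr hS b hdv
  have hi : ∑ e ∈ (ball R1).filter Primary, (N e : ℝ)⁻¹ ≤ zt (1 + ε / 3) * r :=
    (sum_le_sum_of_subset_of_nonneg (filter_subset _ _) fun _ _ _ => by positivity).trans
      ((sum_inv_le hδ hR1.le).trans (mul_le_mul_of_nonneg_left
        (Real.rpow_le_rpow hR1.le hRR hδ.le) (by linarith)))
  have hi0 : 0 ≤ ∑ e ∈ (ball R1).filter Primary, (N e : ℝ)⁻¹ := sum_nonneg fun _ _ => by positivity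
  have hl : 1 + Real.log K ≤ (1 + 2 / (ε / 3)) * r := by
    have h1 : Real.log K ≤ 2 * Real.log R := by
      have := Real.log_le_log (by linarith) hKR
      rwa [Real.log_pow, Nat.cast_ofNat] at this
    have h2 : Real.log R ≤ r / (ε / 3) := Real.log_le_rpow_div hRp.le hδ
    have h3 : (1 + 2 / (ε / 3)) * r = r + 2 * (r / (ε / 3)) := by ring
    linarith
  have na := Sp.nr_nonneg S a
  have nb := Sp.nr_nonneg S b
  rw [swap hS]
  refine (norm_sum_le _ _).trans ((sum_le_sum fun d hd =>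
    (norm_sum_le _ _).trans (sum_le_sum (two d hd))).trans ?_)
  simp only [← mul_sum, sum_add_distrib, ← sum_mul]
  have h9 : R ^ ε = r * r * r := by
    rw [hr, ← Real.rpow_add hRp, ← Real.rpow_add hRp]; congr 1; ring
  calc _ ≤ Q * (D * r * MP_26a8c3_nt.QL.nr S a * (zt (1 + ε / 3) * r) +
        zt (1 + ε / 3) * r * (D * r * MP_26a8c3_nt.QL.nr S b)) := by
        refine mul_le_mul_of_nonneg_left (add_le_add (mul_le_mul ha hi hi0 (by positivity))
          (mul_le_mul hi hb (sum_nonneg fun _ _ => Sp.nr_nonneg _ _) (by positivity))) hQ0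
    _ ≤ C * ((1 + 2 / (ε / 3)) * r) * β * (m * Y + R1) * (D * r * MP_26a8c3_nt.QL.nr S a * (zt (1 + ε / 3) * r) +
        zt (1 + ε / 3) * r * (D * r * MP_26a8c3_nt.QL.nr S b)) := by rw [hQ]; gcongr
    _ = _ := by rw [h9]; ring

theorem pErB (h : S_Bil) : S_ErB := by
  intro c C0 hG ε hε
  obtain ⟨C, hC, h⟩ := h ε hε
  have h0 := hG.pos
  refine ⟨C0 * C, by positivity, ?_⟩
  intro K R β m V R1 M S a b hK hR hKR hβ hm hV hR1 hRR hy hg hS
  have h1 := h K R β m (√V) R1 M S a b (fun v d e =>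
    (1 / 6 * mu d * mu e * (Ps c (V / N v / (N (lcm d e) : ℝ) ^ 2) : ℝ)) / (C0 : ℂ))
    hK hR hKR hβ hm (Real.sqrt_nonneg _) hR1 hRR hy hg hS ?_
  · have h2 : ∑ n ∈ S, ∑ n' ∈ S, a n * b n' * Er c K n n' V =
        C0 * ∑ n ∈ S, ∑ n' ∈ S, a n * b n' * ∑ v ∈ Wk K, eta n v * eta n' v *
          ∑ d ∈ pdiv n, ∑ e ∈ pdiv n', (1 / 6 * mu d * mu e *
            (Ps c (V / N v / (N (lcm d e) : ℝ) ^ 2) : ℝ)) / (C0 : ℂ) := by
      have hc : (C0 : ℂ) ≠ 0 := by exact_mod_cast h0.ne'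
      simp only [Er, ← sum_div, ← mul_div_assoc]
      rw [mul_div_cancel_left₀ _ hc]
    rw [h2, norm_mul, Complex.norm_real, Real.norm_of_nonneg h0.le]
    refine (mul_le_mul_of_nonneg_left h1 h0.le).trans (le_of_eq ?_)
    ring
  · intro v d e hv hd he
    have hl : lcm d e ≠ 0 := lcm_ne_zero_iff.2 ⟨hd, he⟩
    have nv := N_pos_real hv
    have nl := N_pos_real hl
    have hp : 0 < V / N v / (N (lcm d e) : ℝ) ^ 2 := by positivity
    have h3 : ‖(1 / 6 * mu d * mu e * (Ps c (V / N v / (N (lcm d e) : ℝ) ^ 2) : ℝ)) / (C0 : ℂ)‖ ≤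
        |Ps c (V / N v / (N (lcm d e) : ℝ) ^ 2)| / C0 := by
      rw [norm_div, norm_mul, norm_mul, norm_mul, Complex.norm_real, Complex.norm_real,
        Real.norm_of_nonneg h0.le, Real.norm_eq_abs]
      refine div_le_div_of_nonneg_right (mul_le_of_le_one_left (abs_nonneg _) ?_) h0.le
      exact mul_le_one₀ (mul_le_one₀ (by norm_num) (norm_nonneg _) (ok.mu_le _)) (norm_nonneg _)
        (ok.mu_le _)
    have h4 := h3.trans ((div_le_iff₀' h0).2 (hG.sq _ hp))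
    have h5 : √(V / N v / (N (lcm d e) : ℝ) ^ 2) * (√(N v) * N (lcm d e)) = √V := by
      rw [Real.sqrt_div (by positivity), Real.sqrt_div hV.le, Real.sqrt_sq nl.le]
      have := Real.sqrt_pos.2 nv
      field_simp
    have h6 : ∀ x : O, x ∣ lcm d e → ‖(1 / 6 * mu d * mu e *
        (Ps c (V / N v / (N (lcm d e) : ℝ) ^ 2) : ℝ)) / (C0 : ℂ)‖ * (√(N v) * N x) ≤ √V := by
      intro x hx
      have h7 : (N x : ℝ) ≤ N (lcm d e) := by exact_mod_cast N_le_of_dvd hx hl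
      rw [← h5]
      gcongr
    exact ⟨h3.trans ((div_le_one h0).2 (hG.one _ hp)), h6 d (dvd_lcm_left _ _),
      h6 e (dvd_lcm_right _ _)⟩

end Pool.Agent.P.MP_323ce2_nt.QS
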