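import Pool.Agent.P.MP_323ce2_nt.QS.St

/-! The bound for the separated dual error. -/

namespace Pool.Agent.P.MP_323ce2_nt.QS

open Finset Pool.Agent.P.MP_26a8c3_nt.QO Pool.Agent.P.MP_26a8c3_nt.QL
open scoped Classical ComplexConjugate

namespace GsBP

lemma num {m P R0 y E F : ℝ} (hP : 1 ≤ P) (hR0 : 1 ≤ R0) (hF : 1 ≤ F) (hE : F ≤ E) (hm : 0 ≤ m)
    (hy : 2 * Real.log R0 - 4 ≤ y) :
    P * F * Real.exp (-(y / 2)) * (m * √(Real.exp y / (P * F ^ 2)) + R0 / E) ≤
      Real.exp 2 * (m * √P + P) := by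
  have hP0 : 0 < P := by linarith
  have h0 : 0 < R0 := by linarith
  have hF0 : 0 < F := by linarith
  have hE0 : 0 < E := by linarith
  have hx := Real.exp_pos (-(y / 2))
  have e1 : Real.exp (-(y / 2)) ^ 2 * Real.exp y = 1 := by
    rw [sq, ← Real.exp_add, ← Real.exp_add, ← Real.exp_zero]
    congr 1
    ring
  have h1 : P * F * Real.exp (-(y / 2)) * √(Real.exp y / (P * F ^ 2)) = √P := by
    have : P = (P * F * Real.exp (-(y / 2))) ^ 2 * (Real.exp y / (P * F ^ 2)) := by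
      have : (P * F * Real.exp (-(y / 2))) ^ 2 * (Real.exp y / (P * F ^ 2)) =
          P * (Real.exp (-(y / 2)) ^ 2 * Real.exp y) := by field_simp
      rw [this, e1, mul_one]
    conv_rhs => rw [this]
    rw [Real.sqrt_mul (by positivity), Real.sqrt_sq (by positivity)]
  have h2 : Real.exp (-(y / 2)) * R0 ≤ Real.exp 2 := by
    rw [← Real.exp_log h0, ← Real.exp_add]
    exact Real.exp_le_exp.2 (by linarith)
  have h3 : F / E ≤ 1 := (div_le_one hE0).2 hE
  have h4 : (1 : ℝ) ≤ Real.exp 2 := Real.one_le_exp (by norm_num)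
  have h5 : 0 ≤ m * √P := by positivity
  calc _ = m * (P * F * Real.exp (-(y / 2)) * √(Real.exp y / (P * F ^ 2))) +
        P * (Real.exp (-(y / 2)) * R0) * (F / E) := by ring
    _ ≤ m * √P + P * Real.exp 2 * 1 := by rw [h1]; gcongr
    _ ≤ _ := by nlinarith

end GsBP

open Db Sp in
theorem pGsB (h : S_ErB) : S_GsB := by
  intro c C0 hg ε hε
  obtain ⟨C, hC, hs⟩ := h c C0 hg (ε / 3) (by positivity)
  obtain ⟨D, hD, hd⟩ := ok.dvb (ε / 3) (by positivity)
  refine ⟨C * Real.exp 2 * D * D, by positivity, ?_⟩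
  intro K R β m P R0 y M S a b hK hR hKR hβ hm hP hR0 hRR hH hG hS hy
  have h0 : 0 < R0 := by linarith
  have hP0 : 0 < P := by linarith
  have hRp : 0 < R := by linarith
  set Q : ℝ := Real.exp 2 * (m * √P + P) with hQ
  have hQ0 : 0 ≤ Q := by positivity
  set r : ℝ := R ^ (ε / 3) with hr
  have hr0 : 0 < r := Real.rpow_pos_of_pos hRp _
  have hdv : ∀ n : O, n ≠ 0 → (N n : ℝ) ≤ R0 → dv n ≤ D * r := fun n hn h =>
    (hd n hn).trans (mul_le_mul_of_nonneg_left
      (Real.rpow_le_rpow (Nat.cast_nonneg _) (h.trans hRR) (by positivity)) hD.le)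
  have one : ∀ e f : O, Primary e → Primary f → f ∣ e →
      ‖∑ n ∈ S.filter (e ∣ ·), ∑ n' ∈ S.filter (e ∣ ·), a n * b n' *
        (mu e * mu f * ((P * N f * Real.exp (-(y / 2)) : ℝ) : ℂ) *
          Er c K (quo n e) (quo n' e) (Real.exp y / (P * (N f : ℝ) ^ 2)))‖ ≤
      C * r * β * Q * (nr (S.filter (e ∣ ·)) a + nr (S.filter (e ∣ ·)) b) := by
    intro e f he hf hfe
    have hF := one_le_N hf.ne_zero
    have hE := one_le_N he.ne_zero
    have hFE : (N f : ℝ) ≤ N e := by exact_mod_cast N_le_of_dvd hfe he.ne_zero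
    have hin : In ((S.filter (e ∣ ·)).image (quo · e)) (R0 / N e) := by
      intro n hn
      obtain ⟨n', hn', rfl⟩ := mem_image.1 hn
      rw [mem_filter] at hn'
      refine ⟨sqo_quo (hS n' hn'.1).1 he hn'.2, (le_div_iff₀' (by linarith)).2 ?_⟩
      rw [← Nat.cast_mul, ← map_mul, Db.mul_quo hn'.2]
      exact (hS n' hn'.1).2
    have h1 := hs K R β m (Real.exp y / (P * (N f : ℝ) ^ 2)) (R0 / N e) M
      ((S.filter (e ∣ ·)).image (quo · e)) (fun n => a (e * n)) (fun n => b (e * n)) hK hR hKR hβ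
      hm (by positivity) (by positivity) ((div_le_self h0.le hE).trans hRR) hH hG hin
    have h2 : ∀ a : O → ℂ, nr ((S.filter (e ∣ ·)).image (quo · e)) (fun n => a (e * n)) =
        nr (S.filter (e ∣ ·)) a := fun a => (sum_quo S e fun n _ => ‖a n‖ ^ 2).symm
    have h3 : ∑ n ∈ S.filter (e ∣ ·), ∑ n' ∈ S.filter (e ∣ ·), a n * b n' *
        (mu e * mu f * ((P * N f * Real.exp (-(y / 2)) : ℝ) : ℂ) *
          Er c K (quo n e) (quo n' e) (Real.exp y / (P * (N f : ℝ) ^ 2))) =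
        mu e * mu f * ((P * N f * Real.exp (-(y / 2)) : ℝ) : ℂ) *
          ∑ n ∈ (S.filter (e ∣ ·)).image (quo · e), ∑ n' ∈ (S.filter (e ∣ ·)).image (quo · e),
            a (e * n) * b (e * n') * Er c K n n' (Real.exp y / (P * (N f : ℝ) ^ 2)) := by
      rw [← sum_quo S e fun n n1 => ∑ n' ∈ (S.filter (e ∣ ·)).image (quo · e),
        a n * b (e * n') * Er c K n1 n' (Real.exp y / (P * (N f : ℝ) ^ 2)), mul_sum]
      refine sum_congr rfl fun n _ => ?_
      rw [← sum_quo S e fun n' n1 => a n * b n' *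
        Er c K (quo n e) n1 (Real.exp y / (P * (N f : ℝ) ^ 2)), mul_sum]
      exact sum_congr rfl fun n' _ => by ring
    rw [h2, h2] at h1
    rw [h3, norm_mul]
    have h4 : ‖mu e * mu f * ((P * N f * Real.exp (-(y / 2)) : ℝ) : ℂ)‖ ≤
        P * N f * Real.exp (-(y / 2)) := by
      rw [norm_mul, norm_mul, Complex.norm_real, Real.norm_of_nonneg (by positivity)]
      exact mul_le_of_le_one_left (by positivity)
        (mul_le_one₀ (ok.mu_le _) (norm_nonneg _) (ok.mu_le _))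
    have h5 := GsBP.num hP hR0 hF hFE hm hy
    have h6 := add_nonneg (nr_nonneg (S.filter (e ∣ ·)) a) (nr_nonneg (S.filter (e ∣ ·)) b)
    refine (mul_le_mul h4 h1 (norm_nonneg _) (by positivity)).trans ?_
    calc _ = C * r * β * (P * N f * Real.exp (-(y / 2)) *
          (m * √(Real.exp y / (P * (N f : ℝ) ^ 2)) + R0 / N e)) *
          (nr (S.filter (e ∣ ·)) a + nr (S.filter (e ∣ ·)) b) := by ring
      _ ≤ _ := by gcongr
  simp only [Gs, mul_sum]
  rw [swap hS]
  have h7 : ∀ e ∈ (ball R0).filter Primary,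
      ‖∑ n ∈ S.filter (e ∣ ·), ∑ n' ∈ S.filter (e ∣ ·), ∑ f ∈ pdiv e, a n * b n' *
        (mu e * mu f * ((P * N f * Real.exp (-(y / 2)) : ℝ) : ℂ) *
          Er c K (quo n e) (quo n' e) (Real.exp y / (P * (N f : ℝ) ^ 2)))‖ ≤
      D * r * (C * r * β * Q) * (nr (S.filter (e ∣ ·)) a + nr (S.filter (e ∣ ·)) b) := by
    intro e he
    rw [mem_filter, Db.mem_ball] at he
    rw [sum_congr rfl fun m _ => sum_comm, sum_comm]
    refine (norm_sum_le _ _).trans ((sum_le_sum fun f hf =>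
      one e f he.2 ((Db.mem_pdiv he.2.ne_zero).1 hf).1 ((Db.mem_pdiv he.2.ne_zero).1 hf).2).trans ?_)
    rw [sum_const, nsmul_eq_mul, mul_assoc (D * r)]
    have h6 := add_nonneg (nr_nonneg (S.filter (e ∣ ·)) a) (nr_nonneg (S.filter (e ∣ ·)) b)
    exact mul_le_mul_of_nonneg_right (hdv e he.2.ne_zero he.1) (by positivity)
  refine (norm_sum_le _ _).trans ((sum_le_sum h7).trans ?_)
  rw [← mul_sum, sum_add_distrib]
  have h8 := fun a => sum_nr hS a fun n hn => hdv n (sqo_ne (hS n hn).1) (hS n hn).2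
  refine (mul_le_mul_of_nonneg_left (add_le_add (h8 a) (h8 b)) (by positivity)).trans
    (le_of_eq ?_)
  have h9 : R ^ ε = r * r * r := by
    rw [hr, ← Real.rpow_add hRp, ← Real.rpow_add hRp]; congr 1; ring
  rw [h9, hQ]; ring

end Pool.Agent.P.MP_323ce2_nt.QS
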