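import Pool.Agent.P.MP_323ce2_nt.QS.St

/-! The induction on the exponent and the optimal large sieve. -/

namespace Pool.Agent.P.MP_323ce2_nt.QS

open Finset Pool.Agent.P.MP_26a8c3_nt.QO Pool.Agent.P.MP_26a8c3_nt.QL
open scoped Classical ComplexConjugate

namespace Ind

lemma sc_pow {ξ : ℝ} (h1 : 1 ≤ ξ) (h2 : ξ ≤ 2) : Sc fun V => V ^ ξ := by
  refine ⟨fun V hV => by positivity, fun V z hV hz => ?_, fun V z hV hz => ?_⟩
  · have hz0 : 0 < z := by linarith
    show (V / z) ^ ξ ≤ V ^ ξ / z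
    rw [Real.div_rpow hV.le hz0.le]
    refine div_le_div_of_nonneg_left (by positivity) hz0 ?_
    have := Real.rpow_le_rpow_of_exponent_le hz h1
    rwa [Real.rpow_one] at this
  · have hz0 : 0 < z := by linarith
    show (z * V) ^ ξ ≤ z ^ 2 * V ^ ξ
    rw [Real.mul_rpow hz0.le hV.le]
    refine mul_le_mul_of_nonneg_right ?_ (by positivity)
    have := Real.rpow_le_rpow_of_exponent_le hz h2
    rwa [Real.rpow_two] at this

lemma gr_pow {ξ K : ℝ} (h1 : 1 ≤ ξ) : Gr K (K ^ (ξ - 1 / 2)) fun V => V ^ ξ := by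
  intro V hV hK
  refine ⟨by positivity, ?_⟩
  show V ^ ξ ≤ K ^ (ξ - 1 / 2) * √V
  have e : V ^ ξ = V ^ (ξ - 1 / 2) * √V := by
    rw [Real.sqrt_eq_rpow, ← Real.rpow_add hV]
    norm_num
  rw [e]
  exact mul_le_mul_of_nonneg_right (Real.rpow_le_rpow hV.le hK (by linarith)) (Real.sqrt_nonneg _)

lemma five {ξ R : ℝ} (h1 : 1 ≤ ξ) (hR : 1 ≤ R) :
    R ^ (2 - 1 / ξ) + R + √(R ^ (2 - 1 / ξ) / R ^ (1 / ξ)) * R +
      R ^ (2 - 1 / ξ) / R * (R ^ 2 / R ^ (2 - 1 / ξ)) ^ ξ +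
      (R ^ (1 / ξ)) ^ (ξ - 1 / 2) * √(R ^ (2 - 1 / ξ)) ≤ 5 * R ^ (2 - 1 / ξ) := by
  have hξ : 0 < ξ := by linarith
  have hη : 1 / ξ ≤ 1 := by rw [div_le_one hξ]; exact h1
  have hm : 1 / ξ * ξ = 1 := by field_simp
  generalize 1 / ξ = η at hη hm ⊢
  obtain ⟨t, ht, rfl⟩ : ∃ t : ℝ, 0 ≤ t ∧ R = Real.exp t :=
    ⟨Real.log R, Real.log_nonneg hR, (Real.exp_log (by linarith)).symm⟩
  simp only [sq, ← Real.exp_mul, ← Real.exp_sub, ← Real.exp_half, ← Real.exp_add]
  have h : ∀ x, x ≤ t * (2 - η) → Real.exp x ≤ Real.exp (t * (2 - η)) :=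
    fun x hx => Real.exp_le_exp.2 hx
  have h3 : t * η * ξ = t := by rw [mul_assoc, hm, mul_one]
  have h4 : t * η ≤ t := mul_le_of_le_one_right ht hη
  refine (add_le_add (add_le_add (add_le_add (add_le_add (h _ ?_) (h _ ?_)) (h _ ?_)) (h _ ?_))
    (h _ ?_)).trans (le_of_eq (by ring)) <;> nlinarith

/-- the step on the critical line -/
lemma diag (hd : S_Dual) (h : S_Stp) {ξ : ℝ} (h1 : 1 ≤ ξ) (h2 : ξ ≤ 2) (hx : Hx ξ) {ε : ℝ}
    (hε : 0 < ε) (hε1 : ε ≤ 1) : ∃ C : ℝ, 1 ≤ C ∧ ∀ R : ℝ, 1 ≤ R →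
      LSB (R ^ (2 - 1 / ξ)) R (C * R ^ (4 * ε) * R ^ (2 - 1 / ξ)) := by
  obtain ⟨A, hA, hF⟩ := hx ε hε
  obtain ⟨C, hC, hS⟩ := h ε hε
  have hA0 : 0 < A := by linarith
  have hC0 : 0 < C := by linarith
  have hξ : 0 < ξ := by linarith
  have hη : 1 / ξ ≤ 1 := by rw [div_le_one hξ]; exact h1
  refine ⟨80 * (C * A), by nlinarith, fun R hR => ?_⟩
  have hR0 : 0 < R := by linarith
  have hβ : 1 ≤ 16 * A * R ^ (3 * ε) := by
    have := Real.one_le_rpow hR (show (0 : ℝ) ≤ 3 * ε by positivity)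
    nlinarith
  have e3 : R ^ (3 * ε) = R ^ ε * R ^ (2 * ε) := by
    rw [← Real.rpow_add hR0]
    congr 1
    ring
  have hK1 : 1 ≤ R ^ (1 / ξ) := Real.one_le_rpow hR (by positivity)
  have hK2 : R ^ (1 / ξ) ≤ R ^ 2 := by
    rw [← Real.rpow_two]
    exact Real.rpow_le_rpow_of_exponent_le hR (by linarith)
  have hKP : R ^ (1 / ξ) ≤ R ^ (2 - 1 / ξ) := Real.rpow_le_rpow_of_exponent_le hR (by linarith)
  have hy : Hy R (16 * A * R ^ (3 * ε)) fun V => V ^ ξ := fun V hV => by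
    rcases lt_or_ge V 1 with hv | hv
    · exact FinP.small hv (by positivity)
    refine FinP.mono (hd V R _ (by positivity) (hF R V hR hv)) le_rfl le_rfl ?_
    have h3 := FinP.pow_le hV hR0 hε.le hε1
    rw [Real.mul_rpow hR0.le hV.le, e3]
    calc _ = 16 * A * R ^ ε * (R + V ^ ξ) * V ^ ε := by ring
      _ ≤ 16 * A * R ^ ε * (R + V ^ ξ) * (R ^ (2 * ε) * (1 + V / R ^ 2)) :=
        mul_le_mul_of_nonneg_left h3 (by positivity)
      _ = _ := by ring
  have hk : HyK (R ^ (1 / ξ)) R (16 * A * R ^ (3 * ε)) fun V => V ^ ξ :=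
    fun V R1 hV hVK hR1 hRR => by
      rcases lt_or_ge V 1 with hv | hv
      · exact FinP.small hv (by positivity)
      rcases lt_or_ge R1 1 with hr | hr
      · refine FinP.mono (hd V R1 0 le_rfl (FinP.small hr le_rfl)) le_rfl le_rfl ?_
        rw [mul_zero]
        positivity
      refine FinP.mono (hd V R1 _ (by positivity) (hF R1 V hr hv)) le_rfl le_rfl ?_
      have h3 : (R1 * V) ^ ε ≤ R ^ (3 * ε) := by
        rw [Real.rpow_mul hR0.le]
        refine Real.rpow_le_rpow (by positivity) ?_ hε.le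
        have e : R ^ (3 : ℝ) = R * R ^ 2 := by
          rw [show (3 : ℝ) = ((3 : ℕ) : ℝ) by norm_num, Real.rpow_natCast]
          ring
        rw [e]
        exact mul_le_mul hRR (hVK.trans hK2) hV.le hR0.le
      calc _ = 16 * A * (R1 + V ^ ξ) * (R1 * V) ^ ε := by ring
        _ ≤ 16 * A * (R1 + V ^ ξ) * R ^ (3 * ε) := mul_le_mul_of_nonneg_left h3 (by positivity)
        _ = _ := by ring
  refine FinP.mono (hS (R ^ (1 / ξ)) (R ^ (2 - 1 / ξ)) R _ _ _ hK1 hK2 hKP hR hβ (by positivity)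
    (sc_pow h1 h2) hy hk (gr_pow h1)) le_rfl le_rfl ?_
  have e4 : R ^ (4 * ε) = R ^ ε * R ^ (3 * ε) := by
    rw [← Real.rpow_add hR0]
    congr 1
    ring
  calc _ ≤ C * R ^ ε * (16 * A * R ^ (3 * ε)) * (5 * R ^ (2 - 1 / ξ)) :=
        mul_le_mul_of_nonneg_left (five h1 hR) (by positivity)
    _ = _ := by rw [e4]; ring

lemma hx_two (hs : S_Step) : Hx 2 := fun ε hε => by
  obtain ⟨C, hC, h⟩ := FinP.first (pTriv ok) hs hε
  refine ⟨C, hC, fun P R hP hR => FinP.mono (h P R hP hR) le_rfl le_rfl ?_⟩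
  have hC0 : 0 < C := by linarith
  have hR0 : 0 < R := by linarith
  have hP0 : 0 < P := by linarith
  rw [Real.rpow_two]
  refine mul_le_mul_of_nonneg_right (mul_le_mul_of_nonneg_left ?_ hC0.le) (by positivity)
  exact Real.rpow_le_rpow hR0.le (le_mul_of_one_le_left hR0.le hP) hε.le

lemma hx_nat (h : S_Ind) (hs : S_Step) (n : ℕ) : Hx (1 + 1 / ((n : ℝ) + 1)) := by
  induction n with
  | zero =>
    have e : (1 + 1 / (((0 : ℕ) : ℝ) + 1) : ℝ) = 2 := by norm_num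
    rw [e]
    exact hx_two hs
  | succ n ih =>
    have hn : (0 : ℝ) < (n : ℝ) + 1 := by positivity
    have h0 : 0 ≤ 1 / ((n : ℝ) + 1) := by positivity
    have h1 : 1 / ((n : ℝ) + 1) ≤ 1 := by
      rw [div_le_one hn]
      linarith [Nat.cast_nonneg (α := ℝ) n]
    have e : (1 + 1 / (((n + 1 : ℕ) : ℝ) + 1) : ℝ) = 2 - 1 / (1 + 1 / ((n : ℝ) + 1)) := by
      push_cast
      field_simp
      ring
    rw [e]
    exact h _ (by linarith) (by linarith) ih

end Ind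

theorem pInd (A : Alg) (h : S_Stp) : S_Ind := by
  intro ξ h1 h2 hx ε hε
  have hξ : 0 < ξ := by linarith
  have hη : 1 / ξ ≤ 1 := by rw [div_le_one hξ]; exact h1
  have hδ : 0 < min (ε / 4) 1 := lt_min (by positivity) one_pos
  obtain ⟨C, hC, hD⟩ := Ind.diag (pDual ok A) h h1 h2 hx hδ (min_le_right _ _)
  have h4 : 4 * min (ε / 4) 1 ≤ ε := by linarith [min_le_left (ε / 4) 1]
  generalize min (ε / 4) 1 = δ at hδ hD h4
  have hz : 1 ≤ 2 - 1 / ξ := by linarith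
  generalize 2 - 1 / ξ = z at hz hD ⊢
  have hz0 : 0 < z := by linarith
  refine ⟨C, hC, fun P R hP hR => ?_⟩
  have hP0 : 0 < P := by linarith
  have hR0 : 0 < R := by linarith
  have hC0 : 0 < C := by linarith
  have hQ : (P ^ (1 / z)) ^ z = P := by
    rw [← Real.rpow_mul hP0.le, one_div_mul_cancel hz0.ne', Real.rpow_one]
  have hQP : P ^ (1 / z) ≤ P := by
    have := Real.rpow_le_rpow_of_exponent_le hP (show 1 / z ≤ 1 by rw [div_le_one hz0]; exact hz)
    rwa [Real.rpow_one] at this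
  have hPR : 1 ≤ P * R := one_le_mul_of_one_le_of_one_le hP hR
  have hM : max R (P ^ (1 / z)) ≤ P * R :=
    max_le (le_mul_of_one_le_left hR0.le hP) (hQP.trans (le_mul_of_one_le_right hP0.le hR))
  have hM0 : 0 < max R (P ^ (1 / z)) := lt_max_of_lt_left hR0
  refine FinP.mono (hD (max R (P ^ (1 / z))) (le_max_of_le_left hR)) ?_ (le_max_left _ _) ?_
  · calc P = (P ^ (1 / z)) ^ z := hQ.symm
      _ ≤ _ := Real.rpow_le_rpow (by positivity) (le_max_right _ _) hz0.le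
  · refine mul_le_mul (mul_le_mul_of_nonneg_left ?_ hC0.le) ?_ (by positivity) (by positivity)
    · exact (Real.rpow_le_rpow hM0.le hM (by positivity)).trans
        (Real.rpow_le_rpow_of_exponent_le hPR h4)
    · rcases le_total R (P ^ (1 / z)) with h3 | h3
      · rw [max_eq_right h3, hQ]
        exact le_add_of_nonneg_right (by positivity)
      · rw [max_eq_left h3]
        exact le_add_of_nonneg_left hP0.le

theorem pOpt (_A : Alg) (h : S_Ind) (hs : S_Step) : S_Opt := by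
  intro ε hε
  obtain ⟨n, hn⟩ := exists_nat_one_div_lt (half_pos hε)
  obtain ⟨C, hC, hD⟩ := Ind.hx_nat h hs n (ε / 2) (half_pos hε)
  refine ⟨C, hC, fun P R hP hR => FinP.mono (hD P R hP hR) le_rfl le_rfl ?_⟩
  have hP0 : 0 < P := by linarith
  have hR0 : 0 < R := by linarith
  have hC0 : 0 < C := by linarith
  have hPR : 1 ≤ P * R := one_le_mul_of_one_le_of_one_le hP hR
  have h1 : 1 ≤ (P * R) ^ (ε / 2) := Real.one_le_rpow hPR (half_pos hε).le
  have h2 : R ^ (1 / ((n : ℝ) + 1)) ≤ (P * R) ^ (ε / 2) :=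
    (Real.rpow_le_rpow hR0.le (le_mul_of_one_le_left hR0.le hP) (by positivity)).trans
      (Real.rpow_le_rpow_of_exponent_le hPR hn.le)
  have e : (P * R) ^ ε = (P * R) ^ (ε / 2) * (P * R) ^ (ε / 2) := by
    rw [← Real.rpow_add (by positivity), add_halves]
  rw [e, Real.rpow_add hR0, Real.rpow_one]
  have h3 : P + R * R ^ (1 / ((n : ℝ) + 1)) ≤ (P * R) ^ (ε / 2) * (P + R) := by
    nlinarith [mul_le_mul_of_nonneg_left h2 hR0.le, mul_le_mul_of_nonneg_left h1 hP0.le]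
  calc _ ≤ C * (P * R) ^ (ε / 2) * ((P * R) ^ (ε / 2) * (P + R)) :=
        mul_le_mul_of_nonneg_left h3 (by positivity)
    _ = _ := by ring

open DualP in
theorem pOptF (A : Alg) (h : S_Opt) : S_OptF := by
  intro ε hε
  obtain ⟨C, hC, h⟩ := h ε hε
  have hC0 : 0 < C := by linarith
  refine ⟨16 * C, by positivity, fun P R S T a hP hR hS hT => ?_⟩
  have hnu : ∀ n, Od n → IsNu 4 (xi n) := A.gam.2.2.2.2.2.2.1
  have hsym : ∀ a b, xi a b = xi b a := A.gam.2.2.2.2.1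
  have hP0 : 0 < P := by linarith
  have hR0 : 0 < R := by linarith
  have hB : 0 ≤ C * (P * R) ^ ε * (P + R) := by positivity
  have key : ∀ c : ZMod 4 × ZMod 4,
      ∑ m ∈ T.filter (fun m => cl m = c), ‖∑ n ∈ S, a n * eta m n‖ ^ 2 ≤
        C * (P * R) ^ ε * (P + R) * ∑ n ∈ S, ‖a n‖ ^ 2 := by
    intro c
    rcases (T.filter fun m => cl m = c).eq_empty_or_nonempty with he | ⟨m0, hm0⟩
    · rw [he, sum_empty]; positivity
    set Tc := T.filter fun m => cl m = c with hTc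
    have hTcIn : In Tc P := fun m hm => hT m (mem_filter.1 hm).1
    have hd := h P R hP hR Tc S (fun n => a n * xi n m0) hTcIn hS
    rw [Real.rpow_one] at hd
    have e1 : ∑ m ∈ Tc, ‖∑ n ∈ S, a n * eta m n‖ ^ 2 =
        ∑ m ∈ Tc, ‖U S (fun n => a n * xi n m0) m‖ ^ 2 := by
      refine sum_congr rfl fun m hm => ?_
      congr 2
      refine sum_congr rfl fun n hn => ?_
      have hon : Od n := (hS n hn).1.2
      have hom : Od m := (hTcIn m hm).1.2
      have h4 : (4 : O) ∣ m - m0 :=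
        four_dvd ((mem_filter.1 hm).2.trans (mem_filter.1 hm0).2.symm)
      rw [A.qr.2.1 m n hom hon, hsym m n, (hnu n hon).per m m0 h4]
      ring
    rw [e1]
    refine hd.trans (mul_le_mul_of_nonneg_left (sum_le_sum fun n hn => ?_) hB)
    have h1 : ‖xi n m0‖ ≤ 1 := (hnu n (hS n hn).1.2).le m0
    rw [norm_mul]
    exact pow_le_pow_left₀ (by positivity) (mul_le_of_le_one_right (norm_nonneg _) h1) 2
  rw [← sum_fiberwise_of_maps_to (s := T) (t := (univ : Finset (ZMod 4 × ZMod 4))) (g := cl)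
    (fun _ _ => mem_univ _)]
  refine (sum_le_sum fun c _ => key c).trans (le_of_eq ?_)
  rw [sum_const, card_univ, Fintype.card_prod, ZMod.card, nsmul_eq_mul]
  push_cast
  ring

end Pool.Agent.P.MP_323ce2_nt.QS
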