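import Pool.Agent.P.MP_323ce2_nt.QS.St

/-! The exact splitting of the kernel, and the cancellation of the main terms. -/

namespace Pool.Agent.P.MP_323ce2_nt.QS

open Finset Pool.Agent.P.MP_26a8c3_nt.QO Pool.Agent.P.MP_26a8c3_nt.QL
open scoped Classical ComplexConjugate

namespace KerP

theorem cop_cop {a b : O} (ha : Primary a) (hb : Primary b) (t : O) (z : ℂ) :
    cop a t * cop b t * z =
      ∑ d ∈ pdiv a, ∑ e ∈ pdiv b, mu d * mu e * if lcm d e ∣ t then z else 0 := by
  rw [← ok.mu_sum a t ha, ← ok.mu_sum b t hb, sum_filter, sum_filter, sum_mul_sum, sum_mul]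
  refine sum_congr rfl fun d _ => ?_
  rw [sum_mul]
  refine sum_congr rfl fun e _ => ?_
  by_cases h1 : d ∣ t <;> by_cases h2 : e ∣ t <;> simp [_root_.lcm_dvd_iff, h1, h2]

theorem sum_ite {V : ℝ} (hV : 0 < V) (d : O) :
    Summable fun t : O => if d ∣ t then ((Th.th V t : ℝ) : ℂ) else 0 := by
  refine Summable.of_norm_bounded (g := fun t => ‖((Th.th V t : ℝ) : ℂ)‖) ?_ fun t => ?_
  · exact (Complex.summable_ofReal.2 (Th.th_sum (pTh0 ok) hV)).norm
  · split_ifs <;> simp

theorem tsum_cop {a b : O} (ha : Primary a) (hb : Primary b) {V : ℝ} (hV : 0 < V) (c : ℝ) :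
    ∑' t : O, cop a t * cop b t * ((Th.th V t : ℝ) : ℂ) =
      ∑ d ∈ pdiv a, ∑ e ∈ pdiv b, mu d * mu e *
        (((Ps c (V / (N (lcm d e) : ℝ) ^ 2) : ℝ) : ℂ) + ((c * √V / N (lcm d e) : ℝ) : ℂ)) := by
  rw [tsum_congr fun t => cop_cop ha hb t _, Summable.tsum_finsetSum fun d _ =>
    summable_sum fun e _ => (sum_ite hV _).mul_left _]
  refine sum_congr rfl fun d hd => ?_
  rw [Summable.tsum_finsetSum fun e _ => (sum_ite hV _).mul_left _]
  refine sum_congr rfl fun e he => ?_
  have hd0 : d ≠ 0 := (mem_filter.1 hd).2.1.ne_zero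
  have he0 : e ≠ 0 := (mem_filter.1 he).2.1.ne_zero
  have hl : lcm d e ≠ 0 := fun h => by
    rcases (lcm_eq_zero_iff d e).1 h with h | h
    exacts [hd0 h, he0 h]
  have h2 := N_pos_real hl
  have h4 : √(V / (N (lcm d e) : ℝ) ^ 2) = √V / N (lcm d e) := by
    rw [Real.sqrt_div hV.le, Real.sqrt_sq h2.le]
  rw [tsum_mul_left, Th.tsum_dvd hl, Ps, h4, ← Complex.ofReal_add]
  congr 2
  ring

end KerP

open KerP in
theorem pSpl : S_Spl := by
  intro c K
  refine ⟨fun a b => ∑ v ∈ Wk K, eta a v * eta b v * ∑ d ∈ pdiv a, ∑ e ∈ pdiv b,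
    (1 / 6 * mu d * mu e * ((c / √(N v) / N (lcm d e) : ℝ) : ℂ)), fun a b V ha hb hV => ?_⟩
  have ha0 : a ≠ 0 := ha.1.1.ne_zero
  have hb0 : b ≠ 0 := hb.1.1.ne_zero
  have hee : ∀ x, ‖eta a x * eta b x‖ ≤ 1 := fun x => by
    rw [norm_mul]
    exact mul_le_one₀ (ok.le a x) (norm_nonneg _) (ok.le b x)
  have hs : Summable fun x : O => ‖eta a x * eta b x * ((G (N x / V) : ℝ) : ℂ)‖ := by
    refine Summable.of_nonneg_of_le (fun _ => norm_nonneg _) (fun x => ?_) (ok.sumG V hV)
    rw [norm_mul, Complex.norm_real, Real.norm_eq_abs, abs_of_pos (Th.G_pos _)]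
    exact mul_le_of_le_one_left (Th.G_pos _).le (hee x)
  have h1 := pFib K (fun x => eta a x * eta b x * ((G (N x / V) : ℝ) : ℂ)) hs
  have hG : G (N (0 : O) / V) = 1 := by simp [G]
  rw [hG] at h1
  have e2 : ∀ v ∈ Wk K, (∑' t : O, if t = 0 then 0 else
      eta a (v * t ^ 2) * eta b (v * t ^ 2) * ((G (N (v * t ^ 2) / V) : ℝ) : ℂ)) =
      6 * ((√V : ℝ) * (eta a v * eta b v * ∑ d ∈ pdiv a, ∑ e ∈ pdiv b,
        (1 / 6 * mu d * mu e * ((c / √(N v) / N (lcm d e) : ℝ) : ℂ))) +
      eta a v * eta b v * ∑ d ∈ pdiv a, ∑ e ∈ pdiv b,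
        (1 / 6 * mu d * mu e * (Ps c (V / N v / (N (lcm d e) : ℝ) ^ 2) : ℝ))) := by
    intro v hv
    have hv0 : v ≠ 0 := (mem_filter.1 hv).2.ne_zero
    have hN := N_pos_real hv0
    have e3 : ∀ t : O, (if t = 0 then 0 else
        eta a (v * t ^ 2) * eta b (v * t ^ 2) * ((G (N (v * t ^ 2) / V) : ℝ) : ℂ)) =
        eta a v * eta b v * (cop a t * cop b t * ((Th.th (V / N v) t : ℝ) : ℂ)) := by
      intro t
      unfold Th.th
      split_ifs
      · simp
      · have e4 : (N t : ℝ) ^ 2 / (V / N v) = N (v * t ^ 2) / V := by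
          rw [map_mul, map_pow, div_div_eq_mul_div]
          push_cast
          ring
        rw [e4, ok.mul, ok.mul, ok.sq a t ha0, ok.sq b t hb0]
        ring
    rw [tsum_congr e3, tsum_mul_left, tsum_cop ha.1.1 hb.1.1 (div_pos hV hN) c,
      Real.sqrt_div hV.le]
    simp only [mul_add, mul_sum, ← sum_add_distrib]
    refine sum_congr rfl fun d _ => sum_congr rfl fun e _ => ?_
    push_cast
    ring
  unfold Full BigS Er
  rw [h1, show (ball K).filter Squarefree = Wk K from rfl, sum_congr rfl e2, ← mul_sum,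
    sum_add_distrib, ← mul_sum]
  push_cast
  ring

open KernP in
theorem pKer (h : S_Spl) (hq : S_PQ) : S_Ker := by
  intro c K P a b hP ha hb hab
  obtain ⟨mK, hm⟩ := h c K
  have k := ok
  have hP0 : 0 < P := by linarith
  have ha0 := ha.1.ne_zero
  have hb0 := hb.1.ne_zero
  have hNa := N_pos_real ha0
  have hNb := N_pos_real hb0
  set D := (pdiv a).filter (· ∣ b) with hD
  have hmem : ∀ e ∈ D, Primary e ∧ e ∣ a ∧ e ∣ b := fun e he => by
    obtain ⟨h3, h4⟩ := mem_filter.1 he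
    exact ⟨((mem_pdiv ha0).1 h3).1, ((mem_pdiv ha0).1 h3).2, h4⟩
  set A : ℝ := N a * N b with hA
  have hA0 : 0 < A := mul_pos hNa hNb
  set wt : O → ℝ := fun f => P * N f / √A with hwt
  set V : O → ℝ := fun f => A / (P * (N f : ℝ) ^ 2) with hV
  have hw0 : ∀ f, 0 ≤ wt f := fun f => by simp only [hwt]; positivity
  set Z : O → ℂ := fun e => eta (quo a e) 0 * eta (quo b e) 0 with hZ
  have hf0 : ∀ e ∈ D, ∀ f ∈ pdiv e, (0 : ℝ) < N f ∧ (N f : ℝ) ≤ N e := fun e he f hf => by
    have he0 := (hmem e he).1.ne_zero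
    obtain ⟨h3, h4⟩ := (mem_pdiv he0).1 hf
    exact ⟨N_pos_real h3.ne_zero, by exact_mod_cast N_le_of_dvd h4 he0⟩
  have main : ∑ e ∈ D, ∑ f ∈ pdiv e,
      mu e * mu f * (wt f : ℂ) * ((√(V f) : ℝ) * mK (quo a e) (quo b e)) = (√P : ℝ) * mK a b := by
    have e1 : ∀ e ∈ D, ∑ f ∈ pdiv e,
        mu e * mu f * (wt f : ℂ) * ((√(V f) : ℝ) * mK (quo a e) (quo b e)) =
        if e = 1 then (√P : ℝ) * mK a b else 0 := fun e he => by
      rw [sum_congr rfl (g := fun f => mu f * (mu e * ((√P : ℝ) * mK (quo a e) (quo b e)))),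
        ← sum_mul, sum_mu k (hmem e he).1]
      · split_ifs with h3
        · rw [h3, k.mu_one, quo_one, quo_one, one_mul, one_mul]
        · rw [zero_mul]
      · intro f hf
        rw [← w_sqrt hP0 (hf0 e he f hf).1 hA0]
        push_cast
        simp only [hwt, hV]
        push_cast
        ring
    rw [sum_congr rfl e1, sum_ite_eq', if_pos]
    exact mem_filter.2 ⟨(mem_pdiv ha0).2 ⟨primary_one, one_dvd a⟩, one_dvd b⟩
  have key : BigS K a b P - Dual K P a b - ErD c K P a b + Er c K a b P =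
      (∑ e ∈ D, ∑ f ∈ pdiv e, mu e * mu f * (wt f : ℂ) * Z e) - eta a 0 * eta b 0 := by
    have e1 : Full a b P - Dual K P a b - ErD c K P a b =
        (∑ e ∈ D, ∑ f ∈ pdiv e, mu e * mu f * (wt f : ℂ) * Z e) + (√P : ℝ) * mK a b := by
      rw [← main, hq a b P ha hb hab hP0, Dual, ErD]
      simp only [← sum_add_distrib, ← sum_sub_distrib]
      refine sum_congr rfl fun e he => sum_congr rfl fun f hf => ?_
      obtain ⟨h3, h4, h5⟩ := hmem e he
      have h6 := (hf0 e he f hf).1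
      rw [hm (quo a e) (quo b e) _ (sqo_quo ha h3 h4) (sqo_quo hb h3 h5) (by positivity)]
      simp only [hwt, hV, hA, hZ]
      ring
    have e2 := hm a b P ha hb hP0
    linear_combination e1 - e2
  set x : ℝ := if a = b then P else 0 with hx
  have hx0 : 0 ≤ x := by
    rw [hx]
    split_ifs
    exacts [hP0.le, le_rfl]
  have hdv : 0 ≤ dv a := Nat.cast_nonneg _
  have bZ : ‖∑ e ∈ D, ∑ f ∈ pdiv e, mu e * mu f * (wt f : ℂ) * Z e‖ ≤ dv a * x := by
    have e1 : ∀ e ∈ D, ‖∑ f ∈ pdiv e, mu e * mu f * (wt f : ℂ) * Z e‖ ≤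
        if e = a then dv a * x else 0 := fun e he => by
      obtain ⟨h3, h4, h5⟩ := hmem e he
      by_cases h6 : quo a e = 1 ∧ quo b e = 1
      · have e2 : e = a := by simpa [h6.1] using mul_quo h4
        have e3 : e = b := by simpa [h6.2] using mul_quo h5
        rw [if_pos e2, hx, if_pos (e2.symm.trans e3)]
        refine (norm_sum_le _ _).trans ((sum_le_card_nsmul _ _ P fun f hf => ?_).trans ?_)
        · refine (norm_term k e f (hw0 f) _).trans ?_
          have e4 : Z e = 1 := by simp [hZ, h6.1, h6.2, eta_zero k primary_one]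
          rw [e4, norm_one, mul_one]
          simp only [hwt, hA]
          rw [← e2, ← e3, Real.sqrt_mul_self (Nat.cast_nonneg _), mul_div_assoc]
          exact mul_le_of_le_one_right hP0.le
            (div_le_one_of_le₀ (hf0 e he f hf).2 (Nat.cast_nonneg _))
        · rw [nsmul_eq_mul, e2]
          exact le_rfl
      · have e4 : Z e = 0 := by
          simp only [hZ, eta_zero k (sqo_quo ha h3 h4).1.1, eta_zero k (sqo_quo hb h3 h5).1.1]
          split_ifs with h7 h8
          · exact (h6 ⟨h7, h8⟩).elim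
          all_goals simp
        simp only [e4, mul_zero, sum_const_zero, norm_zero]
        split_ifs
        · positivity
        · exact le_rfl
    refine (norm_sum_le _ _).trans ((sum_le_sum e1).trans ?_)
    rw [sum_ite_eq']
    split_ifs
    · exact le_rfl
    · positivity
  have b0 : ‖eta a 0 * eta b 0‖ ≤ x := by
    rw [eta_zero k ha.1.1, eta_zero k hb.1.1]
    split_ifs with h3 h4
    · rw [hx, if_pos (h3.trans h4.symm)]
      simpa using hP
    all_goals simpa using hx0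
  rw [key]
  refine (norm_sub_le _ _).trans ((add_le_add bZ b0).trans (le_of_eq ?_))
  rw [hx]
  split_ifs <;> ring

end Pool.Agent.P.MP_323ce2_nt.QS
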