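import Pool.Agent.P.MP_323ce2_nt.QS.St

/-! One weighted mean square over small squarefree parts. -/

namespace Pool.Agent.P.MP_323ce2_nt.QS

open Finset Pool.Agent.P.MP_26a8c3_nt.QO Pool.Agent.P.MP_26a8c3_nt.QL
open scoped Classical ComplexConjugate

namespace One

/-- squarefree arguments of norm at most `V` -/
lemma sqf {V R B : ℝ} (hB : 0 ≤ B) (h : LSB V R B) {T S : Finset O}
    (hT : ∀ v ∈ T, Squarefree v ∧ (N v : ℝ) ≤ V) (hS : In S R) (a : O → ℂ) :
    ∑ v ∈ T, ‖U S a v‖ ^ 2 ≤ ((ball 12).card : ℝ) * (B * nr S a) := by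
  set Z : Finset (O × O) := ball 12 ×ˢ (ball V).filter SQO with hZ
  set g : O × O → O := fun q => q.2 * q.1 with hg
  have sub : T ⊆ Z.image g := by
    intro x hx
    obtain ⟨hw, hV⟩ := hT x hx
    obtain ⟨v, s, hv, hs, e⟩ := Star.dec hw
    have hv0 : v ≠ 0 := by rintro rfl; exact hw.ne_zero (by simpa using e)
    have h2 := one_le_N hv0
    have hn : (N x : ℝ) = N v * N s := by rw [e, map_mul]; push_cast; ring
    have h3 : (0 : ℝ) ≤ N s := Nat.cast_nonneg _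
    refine mem_image.2 ⟨(v, s), mem_product.2 ⟨by simpa [ball] using hv, ?_⟩, by
      simp only [hg]; rw [e]; ring⟩
    simp only [mem_filter, ball, Set.Finite.mem_toFinset, Set.mem_ofPred_eq]
    exact ⟨by nlinarith, hs⟩
  calc ∑ x ∈ T, ‖U S a x‖ ^ 2 ≤ ∑ x ∈ Z.image g, ‖U S a x‖ ^ 2 :=
        sum_le_sum_of_subset_of_nonneg sub fun _ _ _ => by positivity
    _ ≤ ∑ q ∈ Z, ‖U S a (g q)‖ ^ 2 := sum_image_le_of_nonneg fun _ _ => by positivity
    _ = ∑ v ∈ ball 12, ∑ s ∈ (ball V).filter SQO, ‖U S a (s * v)‖ ^ 2 := by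
        rw [hZ, sum_product]
    _ ≤ ∑ _v ∈ ball 12, B * nr S a := by
        refine sum_le_sum fun v _ => ?_
        simp only [Star.twist ok]
        refine (h _ S _ (fun n hn => ?_) hS).trans
          (mul_le_mul_of_nonneg_left (Star.nr_twist ok S a v) hB)
        simp only [mem_filter, ball, Set.Finite.mem_toFinset, Set.mem_ofPred_eq] at hn
        exact ⟨hn.2, hn.1⟩
    _ = _ := by rw [sum_const, nsmul_eq_mul]

/-- one dyadic block -/
lemma blk {K R β m Y R1 D K1 : ℝ} {M : ℝ → ℝ} {T S : Finset O} (a : O → ℂ) {φ : O → ℝ}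
    (hβ : 0 ≤ β) (hm : 0 ≤ m) (hY : 0 ≤ Y) (h1 : 0 < R1) (hR : R1 ≤ R) (hD : 1 ≤ D)
    (hy : HyK K R β M) (hg : Gr K m M) (hS : In S (R1 / D))
    (hφ : ∀ v, v ≠ 0 → φ v ≤ 1 ∧ φ v * (√(N v) * D) ≤ Y) (k0 : 0 < K1) (k1 : K1 ≤ K)
    (hT : ∀ v ∈ T, Squarefree v ∧ (N v : ℝ) ≤ K1 ∧ K1 ≤ 2 * N v) :
    ∑ v ∈ T, φ v * ‖U S a v‖ ^ 2 ≤
      ((ball 12).card : ℝ) * (2 * (β * (m * Y + R1) / D * nr S a)) := by
  have D0 : 0 < D := by linarith
  have s0 : 0 < √K1 := Real.sqrt_pos.2 k0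
  set μ : ℝ := min 1 (2 * Y / (√K1 * D)) with hμ
  have μ0 : 0 ≤ μ := le_min zero_le_one (by positivity)
  have μ1 : μ ≤ 1 := min_le_left _ _
  have μ2 : μ * √K1 ≤ 2 * Y / D := by
    have := mul_le_mul_of_nonneg_right (min_le_right 1 (2 * Y / (√K1 * D))) s0.le
    refine this.trans (le_of_eq ?_)
    field_simp
  have hle : ∀ v ∈ T, φ v ≤ μ := by
    intro v hv
    obtain ⟨hw, -, h2⟩ := hT v hv
    obtain ⟨p1, p2⟩ := hφ v hw.ne_zero
    refine le_min p1 ?_
    rcases le_total (φ v) 0 with h | h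
    · exact h.trans (by positivity)
    · rw [le_div_iff₀ (by positivity)]
      have n0 : (0 : ℝ) ≤ N v := Nat.cast_nonneg _
      have : √K1 ≤ 2 * √(N v) := by
        rw [Real.sqrt_le_iff]
        refine ⟨by positivity, ?_⟩
        rw [mul_pow, Real.sq_sqrt n0]
        linarith
      calc φ v * (√K1 * D) ≤ φ v * (2 * √(N v) * D) := by gcongr
        _ = 2 * (φ v * (√(N v) * D)) := by ring
        _ ≤ 2 * Y := by linarith
  obtain ⟨g0, g1⟩ := hg K1 k0 k1
  have r0 : 0 < R1 / D := by positivity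
  have hb := sqf (by positivity) (hy K1 (R1 / D) k0 k1 r0 ((div_le_self h1.le hD).trans hR))
    (fun v hv => ⟨(hT v hv).1, (hT v hv).2.1⟩) hS a
  have n0 := Star.nr_nonneg S a
  have key : μ * (R1 / D + M K1) ≤ 2 * ((m * Y + R1) / D) := by
    have a1 : μ * (R1 / D) ≤ R1 / D := mul_le_of_le_one_left r0.le μ1
    have a2 : μ * M K1 ≤ m * (2 * Y / D) := by
      calc μ * M K1 ≤ μ * (m * √K1) := by gcongr
        _ = m * (μ * √K1) := by ring
        _ ≤ _ := by gcongr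
    have e : 2 * ((m * Y + R1) / D) = m * (2 * Y / D) + 2 * (R1 / D) := by ring
    rw [e, mul_add]
    linarith
  calc ∑ v ∈ T, φ v * ‖U S a v‖ ^ 2 ≤ ∑ v ∈ T, μ * ‖U S a v‖ ^ 2 :=
        sum_le_sum fun v hv => mul_le_mul_of_nonneg_right (hle v hv) (by positivity)
    _ = μ * ∑ v ∈ T, ‖U S a v‖ ^ 2 := by rw [mul_sum]
    _ ≤ μ * (((ball 12).card : ℝ) * (β * (R1 / D + M K1) * nr S a)) := by gcongr
    _ = ((ball 12).card : ℝ) * (β * nr S a * (μ * (R1 / D + M K1))) := by ring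
    _ ≤ ((ball 12).card : ℝ) * (β * nr S a * (2 * ((m * Y + R1) / D))) := by gcongr
    _ = _ := by ring

end One

theorem pOne : S_One := by
  set E : ℝ := ((ball 12).card : ℝ) with hE
  have E0 : 0 ≤ E := Nat.cast_nonneg _
  refine ⟨4 * (E + 1), by positivity, ?_⟩
  intro K R β m Y R1 D M S a φ hK hβ hm hY h1 hR hD hy hg hS hφ
  set J := Nat.log 2 ⌊K⌋₊ with hJ
  have hW : ∀ v ∈ Wk K, Squarefree v ∧ (N v : ℝ) ≤ K := by
    intro v hv
    simp only [Wk, mem_filter, ball, Set.Finite.mem_toFinset, Set.mem_ofPred_eq] at hv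
    exact ⟨hv.2, hv.1⟩
  have maps : ∀ v ∈ Wk K, Nat.log 2 (N v) ∈ range (J + 1) := fun v hv =>
    mem_range.2 (Nat.lt_succ_of_le (Nat.log_mono_right (Nat.le_floor (hW v hv).2)))
  have l0 := Real.log_nonneg hK
  have hJ' : ((J + 1 : ℕ) : ℝ) ≤ 2 * (1 + Real.log K) := by
    have f0 : ⌊K⌋₊ ≠ 0 := (Nat.floor_pos.2 hK).ne'
    have a1 : ((2 : ℝ)) ^ J ≤ K := by
      have : ((2 ^ J : ℕ) : ℝ) ≤ ⌊K⌋₊ := by exact_mod_cast Nat.pow_log_le_self 2 f0
      push_cast at this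
      exact this.trans (Nat.floor_le (by linarith))
    have a2 := Real.log_le_log (by positivity) a1
    rw [Real.log_pow] at a2
    have a3 := Real.log_two_gt_d9
    have a4 : (0 : ℝ) ≤ J := Nat.cast_nonneg _
    push_cast
    nlinarith
  have n0 := Star.nr_nonneg S a
  have D0 : 0 < D := by linarith
  set X : ℝ := β * (m * Y + R1) / D * nr S a with hX
  have X0 : 0 ≤ X := by positivity
  rw [← sum_fiberwise_of_maps_to maps]
  calc _ ≤ ∑ _j ∈ range (J + 1), E * (2 * X) := by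
        refine sum_le_sum fun j _ => ?_
        refine One.blk a hβ hm hY h1 hR hD hy hg hS hφ (K1 := min K (2 ^ (j + 1)))
          (lt_min (by linarith) (by positivity)) (min_le_left _ _) fun v hv => ?_
        obtain ⟨hv, e⟩ := mem_filter.1 hv
        obtain ⟨w1, w2⟩ := hW v hv
        have v0 : N v ≠ 0 := by
          have := one_le_N w1.ne_zero
          intro h; rw [h] at this; norm_num at this
        have b1 : ((2 ^ j : ℕ) : ℝ) ≤ N v := by
          rw [← e]; exact_mod_cast Nat.pow_log_le_self 2 v0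
        have b2 : (N v : ℝ) ≤ ((2 ^ (j + 1) : ℕ) : ℝ) := by
          rw [← e]; exact_mod_cast (Nat.lt_pow_succ_log_self (by norm_num) (N v)).le
        push_cast at b1 b2
        refine ⟨w1, le_min w2 b2, (min_le_right _ _).trans ?_⟩
        rw [pow_succ]; linarith
    _ = ((J + 1 : ℕ) : ℝ) * (E * (2 * X)) := by rw [sum_const, card_range, nsmul_eq_mul]
    _ ≤ 2 * (1 + Real.log K) * ((E + 1) * (2 * X)) := by gcongr; linarith
    _ = _ := by rw [hX]; ring

end Pool.Agent.P.MP_323ce2_nt.QS
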