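import Pool.Agent.P.MP_323ce2_nt.QS.St

/-! One step of the optimal quadratic large sieve. -/

namespace Pool.Agent.P.MP_323ce2_nt.QS

open Finset Pool.Agent.P.MP_26a8c3_nt.QO Pool.Agent.P.MP_26a8c3_nt.QL
open scoped Classical ComplexConjugate

namespace StpP

theorem large (K : ℝ) {P : ℝ} (hP : 0 < P) (T S : Finset O) (a : O → ℂ)
    (hT : ∀ m ∈ T, Big K m ∧ (N m : ℝ) ≤ P) :
    ∑ m ∈ T, ‖U S a m‖ ^ 2 ≤
      Real.exp a0 * (∑ m ∈ S, ∑ n ∈ S, a m * conj (a n) * BigS K m n P).re := by
  have h1 := hasSum_sum fun m (_ : m ∈ S) => hasSum_sum fun n (_ : n ∈ S) =>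
    (StepP.hasSum_big ok K m n hP).mul_left (a m * conj (a n))
  have h2 : ∀ x : O, (∑ m ∈ S, ∑ n ∈ S, a m * conj (a n) *
      if Big K x then eta m x * eta n x * (G (N x / P) : ℝ) else 0) =
      ((if Big K x then G (N x / P) * ‖U S a x‖ ^ 2 else 0 : ℝ) : ℂ) := fun x => by
    split_ifs
    · rw [Complex.ofReal_mul, Complex.ofReal_pow, ← Complex.mul_conj', U, map_sum, sum_mul_sum,
        mul_sum]
      refine sum_congr rfl fun m _ => ?_
      rw [mul_sum]
      refine sum_congr rfl fun n _ => ?_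
      rw [map_mul, ok.real]
      ring
    · simp
  simp only [h2] at h1
  have h3 := Complex.hasSum_re h1
  simp only [Complex.ofReal_re] at h3
  have h4 := sum_le_hasSum T (fun x _ => by
    split_ifs
    · exact mul_nonneg (StepP.G_nonneg _) (sq_nonneg _)
    · exact le_rfl) h3
  refine le_trans ?_ (mul_le_mul_of_nonneg_left h4 (Real.exp_pos _).le)
  rw [mul_sum]
  refine sum_le_sum fun m hm => ?_
  rw [if_pos (hT m hm).1, ← mul_assoc]
  exact le_mul_of_one_le_left (sq_nonneg _) (StepP.one_le_G ((div_le_one hP).2 (hT m hm).2))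

theorem cont_ps {c C : ℝ} (h : Gd c C) {A B D : ℝ} (hA : 0 < A) (hB : 0 < B) (hD : 0 < D) :
    Continuous fun y : ℝ => Ps c (Real.exp y / A / B / D) := by
  have e : (fun y : ℝ => Ps c (Real.exp y / A / B / D)) =
      (fun y : ℝ => Ps c (Real.exp y)) ∘ fun y => y - Real.log (A * B * D) := by
    funext y
    simp only [Function.comp]
    rw [Real.exp_sub, Real.exp_log (by positivity)]
    congr 1
    field_simp
  rw [e]
  exact h.cont.comp (by fun_prop)

theorem cont_gs {c C : ℝ} (h : Gd c C) (K : ℝ) {P : ℝ} (hP : 0 < P) (a b : O) :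
    Continuous (Gs c K P a b) := by
  unfold Gs Er
  refine continuous_finsetSum _ fun e _ => continuous_finsetSum _ fun f hf => ?_
  refine Continuous.mul (by fun_prop) (continuous_finsetSum _ fun v hv => ?_)
  refine continuous_const.mul (continuous_finsetSum _ fun d hd =>
    continuous_finsetSum _ fun d' hd' => continuous_const.mul ?_)
  have h1 := N_pos_real (mem_filter.1 hf).2.1.ne_zero
  have h2 := N_pos_real (mem_filter.1 hv).2.ne_zero
  have h3 : lcm d d' ≠ 0 := by
    rw [Ne, _root_.lcm_eq_zero_iff, not_or]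
    exact ⟨(mem_filter.1 hd).2.1.ne_zero, (mem_filter.1 hd').2.1.ne_zero⟩
  have h4 := N_pos_real h3
  exact Complex.continuous_ofReal.comp (cont_ps h (by positivity) h2 (by positivity))

theorem erd_eq (c K : ℝ) {P : ℝ} {a b : O} (ha : a ≠ 0) (hb : b ≠ 0) (u v : ℝ) :
    ErD c K (P * Real.exp (u + v)) a b = (Real.exp ((u + v) / 2) : ℝ) *
      Gs c K P a b (Real.log (N a) - u + (Real.log (N b) - v)) := by
  have h1 := N_pos_real ha
  have h2 := N_pos_real hb
  have e1 : Real.exp (Real.log (N a) - u + (Real.log (N b) - v)) =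
      N a * N b / Real.exp (u + v) := by
    rw [show Real.log (N a) - u + (Real.log (N b) - v) =
      Real.log (N a) + Real.log (N b) - (u + v) by ring, Real.exp_sub, Real.exp_add,
      Real.exp_log h1, Real.exp_log h2]
  have e2 : Real.exp ((u + v) / 2) *
      Real.exp (-((Real.log (N a) - u + (Real.log (N b) - v)) / 2)) =
      Real.exp (u + v) / √(N a * N b) := by
    have : √((N a : ℝ) * N b) = Real.exp ((Real.log (N a) + Real.log (N b)) / 2) := by
      rw [Real.exp_half, Real.exp_add, Real.exp_log h1, Real.exp_log h2]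
    rw [this, ← Real.exp_add, ← Real.exp_sub]
    congr 1
    ring
  rw [ErD, Gs, mul_sum]
  refine sum_congr rfl fun e _ => ?_
  rw [mul_sum]
  refine sum_congr rfl fun f _ => ?_
  rw [e1, show (N a : ℝ) * N b / Real.exp (u + v) / (P * (N f : ℝ) ^ 2) =
    N a * N b / (P * Real.exp (u + v) * (N f : ℝ) ^ 2) by rw [div_div]; ring_nf,
    show P * Real.exp (u + v) * N f / √(N a * N b) = Real.exp ((u + v) / 2) * (P * N f *
      Real.exp (-((Real.log (N a) - u + (Real.log (N b) - v)) / 2))) by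
      rw [mul_left_comm, e2]; ring]
  push_cast
  ring

theorem nr_conj (S : Finset O) (a : O → ℂ) : nr S (fun n => conj (a n)) = nr S a := by
  simp [MP_26a8c3_nt.QL.nr]

theorem nr_ite (S : Finset O) (a : O → ℂ) (p : O → Prop) [DecidablePred p] :
    nr S (fun n => if p n then a n else 0) ≤ nr S a := by
  refine sum_le_sum fun n _ => ?_
  beta_reduce
  split_ifs
  · exact le_rfl
  · simp

theorem exp_le_three {x : ℝ} (h : x ≤ 1) : Real.exp x ≤ 3 :=
  (Real.exp_le_exp.2 h).trans (Real.exp_one_lt_d9.le.trans (by norm_num))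

theorem diag {S : Finset O} {a : O → ℂ} {E : O → O → ℂ} {x : ℝ}
    (h : ∀ m ∈ S, ∀ n ∈ S, ‖E m n‖ ≤ if m = n then x else 0) :
    ‖∑ m ∈ S, ∑ n ∈ S, a m * conj (a n) * E m n‖ ≤ x * nr S a := by
  rw [MP_26a8c3_nt.QL.nr, mul_sum]
  refine (norm_sum_le _ _).trans (sum_le_sum fun m hm => ?_)
  rw [sum_eq_single_of_mem m hm]
  · have := h m hm m hm
    rw [if_pos rfl] at this
    rw [norm_mul, norm_mul, Complex.norm_conj, ← sq, mul_comm]
    exact mul_le_mul_of_nonneg_right this (sq_nonneg _)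
  · intro n hn hne
    have := h m hm n hn
    rw [if_neg hne.symm, norm_le_zero_iff] at this
    rw [this, mul_zero]

end StpP

open StpP in
theorem pStp (hψ : S_Psi) (hk : S_Ker) (he : S_ErB) (hg : S_GsB) (hv : S_Avg) : S_Stp := by
  intro ε hε
  have hε2 : 0 < ε / 2 := by positivity
  obtain ⟨c, C0, hψ⟩ := hψ
  obtain ⟨Cp, hCp, hp⟩ := pPart _ hε2
  obtain ⟨Cx, hCx, hst⟩ := pStar ok (pTriv ok)
  obtain ⟨Cd, hCd, hd⟩ := pDualB ok (pSep ok) _ hε2
  obtain ⟨Ce, hCe, he⟩ := he c C0 hψ _ hε2
  obtain ⟨Cg, hCg, hg⟩ := hg c C0 hψ _ hε2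
  obtain ⟨D, hD, hdv⟩ := ok.dvb _ hε2
  have hea : 0 < Real.exp a0 := Real.exp_pos _
  set C1 : ℝ := 3 * Cd * Cx + 9 * (D + 1) + 6 * Ce with hC1
  set C' : ℝ := 1 + Real.exp a0 * (C1 + 24 * Cg) with hC'
  have hC10 : 0 < C1 := by positivity
  have hC'0 : 0 < C' := by positivity
  refine ⟨Cp * C' + 1, le_add_of_nonneg_left (mul_pos hCp hC'0).le, ?_⟩
  intro K P R β m M hK hKR hKP hR hβ hm hM hH hHK hG T S a hT hS
  have hP : 1 ≤ P := hK.trans hKP
  have hP0 : 0 < P := by linarith
  have hR0 : 0 < R := by linarith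
  have hK0 : 0 < K := by linarith
  have hβ0 : 0 ≤ β := by linarith
  have hSt := hst K R β M hK hR hβ0 hM hH
  set r : ℝ := R ^ (ε / 2) with hr
  have hr1 : 1 ≤ r := Real.one_le_rpow hR hε2.le
  have hM0 : 0 ≤ M (R ^ 2 / P) := hM.1 _ (by positivity)
  set o1 : ℝ := √(P / K) * R with ho1
  set o2 : ℝ := P / R * M (R ^ 2 / P) with ho2
  set o3 : ℝ := m * √P with ho3
  have ho1' : 0 ≤ o1 := by positivity
  have ho2' : 0 ≤ o2 := by positivity
  have ho3' : 0 ≤ o3 := by positivity
  set Ω : ℝ := P + R + o1 + o2 + o3 with hΩ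
  have hΩ0 : 0 ≤ Ω := by positivity
  set W : ℝ := r * β * Ω with hW
  have hW0 : 0 ≤ W := by positivity
  have hB : 0 ≤ C' * W := by positivity
  have key := hp R (C' * W) T hR hB ?_ S a hS
  · refine key.trans (mul_le_mul_of_nonneg_right ?_ (StepP.nr_nonneg S a))
    have e : R ^ ε = r * r := by
      rw [hr, ← Real.rpow_add hR0]
      congr 1
      ring
    have : 0 ≤ r * r * β * Ω := by positivity
    rw [e, hW]
    linear_combination this
  intro R0 S a h1 h2 hS hlo h4
  have hn := StepP.nr_nonneg S a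
  have hR00 : 0 < R0 := by linarith
  have hr0 : R0 ^ (ε / 2) ≤ r := Real.rpow_le_rpow hR00.le h2 hε2.le
  have hβΩ : β * Ω ≤ W := by
    rw [hW, mul_assoc]
    exact le_mul_of_one_le_left (by positivity) hr1
  have hrΩ : r * Ω ≤ W := by
    rw [hW, mul_right_comm]
    exact le_mul_of_one_le_right (by positivity) hβ
  rw [← sum_filter_add_sum_filter_not T fun m => (N m : ℝ) ≤ K]
  have b1 : ∑ x ∈ T.filter fun x => (N x : ℝ) ≤ K, ‖U S a x‖ ^ 2 ≤ W * nr S a := by
    refine (hHK K R0 hK0 le_rfl hR00 h2 _ S a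
      (fun x hx => ⟨(hT x (mem_filter.1 hx).1).1, (mem_filter.1 hx).2⟩) hS).trans
      (mul_le_mul_of_nonneg_right (le_trans (mul_le_mul_of_nonneg_left ?_ hβ0) hβΩ) hn)
    have h5 := (hG K hK0 le_rfl).2
    have h6 : m * √K ≤ o3 := mul_le_mul_of_nonneg_left (Real.sqrt_le_sqrt hKP) hm
    rw [hΩ]
    linarith
  set X0 := ∑ x ∈ T.filter fun x => ¬ (N x : ℝ) ≤ K, ‖U S a x‖ ^ 2 with hX0
  have step : ∀ z : ℝ, 1 ≤ z → z ≤ 9 → X0 ≤ Real.exp a0 * (C1 * W * nr S a +
      (∑ n ∈ S, ∑ n' ∈ S, a n * conj (a n') * ErD c K (P * z) n n').re) := by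
    intro z z1 z9
    have hPz : P ≤ P * z := le_mul_of_one_le_right hP0.le z1
    have hPz1 : 1 ≤ P * z := hP.trans hPz
    have hPz0 : 0 < P * z := by linarith
    have hPz9 : P * z ≤ 9 * P := by nlinarith
    refine (large K hPz0 _ S a fun x hx =>
      ⟨StepP.big_of (hT x (mem_filter.1 hx).1).1 (not_le.1 (mem_filter.1 hx).2),
        (hT x (mem_filter.1 hx).1).2.trans hPz⟩).trans (mul_le_mul_of_nonneg_left ?_ hea.le)
    have e : ∑ n ∈ S, ∑ n' ∈ S, a n * conj (a n') * BigS K n n' (P * z) =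
        (∑ n ∈ S, ∑ n' ∈ S, a n * conj (a n') * Dual K (P * z) n n' +
          ∑ n ∈ S, ∑ n' ∈ S, a n * conj (a n') * (BigS K n n' (P * z) - Dual K (P * z) n n' -
            ErD c K (P * z) n n' + Er c K n n' (P * z)) -
          ∑ n ∈ S, ∑ n' ∈ S, a n * conj (a n') * Er c K n n' (P * z)) +
        ∑ n ∈ S, ∑ n' ∈ S, a n * conj (a n') * ErD c K (P * z) n n' := by
      simp only [← sum_add_distrib, ← sum_sub_distrib]
      exact sum_congr rfl fun n _ => sum_congr rfl fun n' _ => by ring
    rw [e, Complex.add_re]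
    refine add_le_add ((Complex.re_le_norm _).trans ?_) le_rfl
    have t1 := hd K (P * z) R (Cx * β) R0 M S a hK hPz1 (by positivity) h1 h2 hM hSt hS hlo
    have t2 := diag (S := S) (a := a) (x := (D * r + 1) * (9 * P))
      (E := fun n n' => BigS K n n' (P * z) - Dual K (P * z) n n' -
        ErD c K (P * z) n n' + Er c K n n' (P * z)) fun n hn n' hn' => by
      refine (hk c K (P * z) n n' hPz1 (hS n hn).1 (hS n' hn').1 (h4 n hn n' hn')).trans ?_
      split_ifs
      · refine mul_le_mul (add_le_add ?_ le_rfl) hPz9 hPz0.le (by positivity)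
        exact (hdv n (hS n hn).1.1.1.ne_zero).trans (mul_le_mul_of_nonneg_left
          (Real.rpow_le_rpow (Nat.cast_nonneg _) ((hS n hn).2.trans h2) hε2.le) hD.le)
      · exact le_rfl
    have t3 := he K R β m (P * z) R0 M S a (fun n => conj (a n)) hK hR hKR hβ0 hm hPz0 hR00 h2
      hHK hG hS
    rw [nr_conj] at t3
    have s9 : √(9 : ℝ) = 3 := by
      rw [show (9 : ℝ) = 3 ^ 2 by norm_num, Real.sqrt_sq (by norm_num)]
    have u1 : √(P * z / K) * R ≤ 3 * o1 := by
      have : √(P * z / K) ≤ 3 * √(P / K) := by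
        rw [← s9, ← Real.sqrt_mul (by norm_num)]
        refine Real.sqrt_le_sqrt ?_
        rw [← mul_div_assoc]
        exact div_le_div_of_nonneg_right hPz9 hK0.le
      rw [ho1, ← mul_assoc]
      exact mul_le_mul_of_nonneg_right this hR0.le
    have u2 : P * z / R * M (R ^ 2 / (P * z)) ≤ o2 := by
      have h5 := hM.2.1 (R ^ 2 / P) z (by positivity) z1
      rw [div_div] at h5
      refine (mul_le_mul_of_nonneg_left h5 (by positivity)).trans (le_of_eq ?_)
      rw [ho2]
      field_simp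
    have u3 : m * √(P * z) ≤ 3 * o3 := by
      have : √(P * z) ≤ 3 * √P := by
        rw [← s9, ← Real.sqrt_mul (by norm_num)]
        exact Real.sqrt_le_sqrt hPz9
      rw [ho3, mul_left_comm]
      exact mul_le_mul_of_nonneg_left this hm
    have v1 : Cd * R0 ^ (ε / 2) * (Cx * β) * (√(P * z / K) * R + P * z / R * M (R ^ 2 / (P * z))) ≤
        3 * Cd * Cx * W := by
      have : √(P * z / K) * R + P * z / R * M (R ^ 2 / (P * z)) ≤ 3 * Ω := by
        rw [hΩ]; linarith
      calc _ ≤ Cd * r * (Cx * β) * (3 * Ω) := by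
            have := hM.1 (R ^ 2 / (P * z)) (by positivity)
            gcongr
        _ = _ := by rw [hW]; ring
    have v2 : (D * r + 1) * (9 * P) ≤ 9 * (D + 1) * W := by
      have h5 : P ≤ Ω := by rw [hΩ]; linarith
      calc _ ≤ (D * r + r) * (9 * Ω) := by gcongr
        _ = 9 * (D + 1) * (r * Ω) := by ring
        _ ≤ _ := by gcongr
    have v3 : Ce * r * β * (m * √(P * z) + R0) * (nr S a + nr S a) ≤ 6 * Ce * W * nr S a := by
      have : m * √(P * z) + R0 ≤ 3 * Ω := by rw [hΩ]; linarith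
      calc _ ≤ Ce * r * β * (3 * Ω) * (nr S a + nr S a) := by gcongr
        _ = _ := by rw [hW]; ring
    refine (norm_sub_le _ _).trans ((add_le_add ((norm_add_le _ _).trans (add_le_add
      (t1.trans (mul_le_mul_of_nonneg_right v1 hn)) (t2.trans (mul_le_mul_of_nonneg_right v2 hn))))
      (t3.trans v3)).trans (le_of_eq ?_))
    rw [hC1]
    ring
  have b2 : X0 ≤ Real.exp a0 * ((C1 + 24 * Cg) * W * nr S a) := by
    set Y := X0 / Real.exp a0 - C1 * W * nr S a with hY
    have hY' : Y ≤ 24 * Cg * W * nr S a := by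
      rcases le_or_gt Y 0 with h5 | h5
      · exact h5.trans (by positivity)
      have h6 := hv S (fun n => Real.log (N n))
        (fun n n' y => a n * conj (a n') * Gs c K P n n' y) (Real.log R0) (Y / 3)
        (2 * Cg * W * nr S a) (fun n hn => ?_)
        (fun n _ n' _ => continuous_const.mul (cont_gs hψ K hP0 n n')) (fun u v u0 u1 v0 v1 => ?_)
        (fun x y x0 _ y0 _ => ?_)
      · linarith
      · have h7 := N_pos_real (hS n hn).1.1.1.ne_zero
        refine ⟨?_, Real.log_le_log h7 (hS n hn).2⟩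
        have h8 := Real.log_le_log (by positivity) (hlo n hn).le
        rw [Real.log_div hR00.ne' two_ne_zero] at h8
        have := Real.log_two_lt_d9
        linarith
      · have h7 := step (Real.exp (u + v)) (Real.one_le_exp (by linarith)) (by
          rw [Real.exp_add]
          nlinarith [exp_le_three u1, exp_le_three v1, Real.exp_pos u, Real.exp_pos v])
        have h8 : ∑ n ∈ S, ∑ n' ∈ S, a n * conj (a n') * ErD c K (P * Real.exp (u + v)) n n' =
            (Real.exp ((u + v) / 2) : ℝ) * ∑ n ∈ S, ∑ n' ∈ S, a n * conj (a n') *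
              Gs c K P n n' (Real.log (N n) - u + (Real.log (N n') - v)) := by
          rw [mul_sum]
          refine sum_congr rfl fun n hn => ?_
          rw [mul_sum]
          refine sum_congr rfl fun n' hn' => ?_
          rw [erd_eq c K (hS n hn).1.1.1.ne_zero (hS n' hn').1.1.1.ne_zero]
          ring
        rw [h8, Complex.re_ofReal_mul, ← div_le_iff₀' hea] at h7
        set F := (∑ n ∈ S, ∑ n' ∈ S, a n * conj (a n') *
          Gs c K P n n' (Real.log (N n) - u + (Real.log (N n') - v))).re with hF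
        have h9 : Y ≤ Real.exp ((u + v) / 2) * F := by rw [hY]; linarith
        have h10 : 0 < F := (pos_iff_pos_of_mul_pos (h5.trans_le h9)).1 (Real.exp_pos _)
        have h11 := exp_le_three (show (u + v) / 2 ≤ 1 by linarith)
        nlinarith
      · have h7 := hg K R β m P R0 (x + y) M S
          (fun n => if Real.log (N n) - 1 ≤ x ∧ x ≤ Real.log (N n) then a n else 0)
          (fun n => if Real.log (N n) - 1 ≤ y ∧ y ≤ Real.log (N n) then conj (a n) else 0)
          hK hR hKR hβ0 hm hP h1 h2 hHK hG hS (by linarith)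
        have h8 := nr_ite S a fun n => Real.log (N n) - 1 ≤ x ∧ x ≤ Real.log (N n)
        have h9 := nr_ite S (fun n => conj (a n))
          fun n => Real.log (N n) - 1 ≤ y ∧ y ≤ Real.log (N n)
        rw [nr_conj] at h9
        refine le_trans (le_of_eq ?_) (h7.trans ?_)
        · congr 1
          rw [sum_filter]
          refine sum_congr rfl fun n _ => ?_
          rw [sum_filter]
          split_ifs
          · refine sum_congr rfl fun n' _ => ?_
            split_ifs <;> simp
          · simp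
        · have : o3 + P ≤ Ω := by rw [hΩ]; linarith
          have h10 : Cg * r * β * (o3 + P) ≤ Cg * r * β * Ω :=
            mul_le_mul_of_nonneg_left this (by positivity)
          refine (mul_le_mul h10 (add_le_add h8 h9)
            (add_nonneg (StepP.nr_nonneg _ _) (StepP.nr_nonneg _ _)) (by positivity)).trans
            (le_of_eq ?_)
          rw [hW]
          ring
    rw [← div_le_iff₀' hea]
    rw [hY] at hY'
    linarith
  refine (add_le_add b1 b2).trans (le_of_eq ?_)
  rw [hC']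
  ring

end Pool.Agent.P.MP_323ce2_nt.QS
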