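import Pool.Agent.P.MP_323ce2_nt.QS.Psi
import Pool.Agent.P.MP_323ce2_nt.QS.Ker
import Pool.Agent.P.MP_323ce2_nt.QS.One
import Pool.Agent.P.MP_323ce2_nt.QS.Bil
import Pool.Agent.P.MP_323ce2_nt.QS.Avg
import Pool.Agent.P.MP_323ce2_nt.QS.GsB
import Pool.Agent.P.MP_323ce2_nt.QS.Stp
import Pool.Agent.P.MP_323ce2_nt.QS.Ind

/-! The optimal quadratic large sieve on the Eisenstein integers. -/

namespace Pool.Agent.P.MP_323ce2_nt.QS

open Pool.Agent.P.MP_26a8c3_nt.QO Pool.Agent.P.MP_26a8c3_nt.QL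

theorem stp (A : Alg) : S_Stp :=
  have he := pErB (pBil pOne)
  pStp pPsi (pKer pSpl (pPQ ok A)) he (pGsB he) pAvg

theorem opt (A : Alg) : S_Opt :=
  have ht := pTriv ok
  have h0 := pTh0 ok
  pOpt A (pInd A (stp A)) (pStep ok ht pPart
    (pKern ok (pSplit ok ht h0 (pTh ok h0) pFib) (pPQ ok A)) (pSchur ok ht) (pStar ok ht)
    (pDualB ok (pSep ok)))

theorem optF (A : Alg) : S_OptF := pOptF A (opt A)

end Pool.Agent.P.MP_323ce2_nt.QS
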