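import Pool.Agent.P.MP_323ce2_nt.QS.St

/-! The Gaussian summed over squares, with a bounded remainder. -/

namespace Pool.Agent.P.MP_323ce2_nt.QS

open Finset Pool.Agent.P.MP_26a8c3_nt.QO Pool.Agent.P.MP_26a8c3_nt.QL
open scoped Classical ComplexConjugate

noncomputable section

namespace Psi

open Complex MeasureTheory Pool.Agent.P.MP_b8021b_nt.PoiN

lemma norm_g (b v : ℂ) : ‖cexp (-b * (‖v‖ : ℂ) ^ 2)‖ = Real.exp (-(b.re * ‖v‖ ^ 2)) := by
  rw [Complex.norm_exp, ← ofReal_pow, mul_comm, re_ofReal_mul, neg_re]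
  congr 1; ring

lemma dec_g {b : ℂ} (hb : 0 < b.re) (k : ℂ) : Dec fun v : ℂ => k * cexp (-b * (‖v‖ : ℂ) ^ 2) := by
  have hp := Real.pi_pos
  obtain ⟨C, hC⟩ := dec_gau 0 (y := b.re / (2 * Real.pi)) (by positivity)
  refine ⟨‖k‖ * C, fun v => ?_⟩
  have h := hC v
  rw [gau, pow_zero, one_mul, norm_real, Real.norm_of_nonneg (Real.exp_pos _).le,
    show 2 * Real.pi * (b.re / (2 * Real.pi)) = b.re by field_simp] at h
  rw [norm_mul, norm_g, mul_assoc]
  exact mul_le_mul_of_nonneg_left h (norm_nonneg _)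

lemma inv_re_pos {z : ℂ} (hz : 0 < z.re) : 0 < z⁻¹.re := by
  rw [inv_re]
  exact div_pos hz (normSq_pos.2 fun e => by simp [e] at hz)

lemma ft_g {b : ℂ} (hb : 0 < b.re) (κ : ℂ) :
    ∫ v : ℂ, 1 * cexp (-b * (‖v‖ : ℂ) ^ 2) * ee (-(2 * (v * κ).re)) =
      Real.pi / b * cexp (-(4 * Real.pi ^ 2 * b⁻¹) * (‖κ‖ : ℂ) ^ 2) := by
  have h := GaussianFourier.integral_cexp_neg_mul_sq_norm_add (V := ℂ) hb
    (-(4 * Real.pi * I)) (conj κ)
  have hb0 : b ≠ 0 := fun e => by simp [e] at hb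
  rw [finrank_real_complex, show ((2 : ℕ) : ℂ) / 2 = 1 by norm_num, cpow_one, norm_conj] at h
  refine Eq.trans ?_ (h.trans ?_)
  · refine integral_congr_ae (Filter.Eventually.of_forall fun v => ?_)
    simp only [one_mul, ee, ← Complex.exp_add, Complex.inner, conj_conj]
    congr 1
    push_cast
    ring
  · congr 2
    field_simp
    rw [I_sq]
    ring

/-- the theta function of the lattice -/
def Θ (z : ℂ) : ℂ := ∑' t : O, cexp (-(a0 * z * N t))

lemma norm_t (z : ℂ) (t : O) : ‖cexp (-(a0 * z * N t))‖ = G (z.re * N t) := by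
  rw [Complex.norm_exp, G]
  congr 1
  simp [mul_assoc]

lemma theta {z : ℂ} (hz : 0 < z.re) :
    HasSum (fun h : O => z⁻¹ * cexp (-(a0 * z⁻¹ * N h))) (Θ z) := by
  have hp := Real.pi_pos
  have ha := Pool.Agent.P.MP_26a8c3_nt.QO.a0_pos
  have hb : 0 < ((a0 : ℂ) * z).re := by rw [re_ofReal_mul]; positivity
  have hb' : 0 < (4 * (Real.pi : ℂ) ^ 2 * ((a0 : ℂ) * z)⁻¹).re := by
    have := inv_re_pos hb
    rw [show 4 * (Real.pi : ℂ) ^ 2 = ((4 * Real.pi ^ 2 : ℝ) : ℂ) by push_cast; ring, re_ofReal_mul]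
    positivity
  have h := poissonO (by fun_prop) (dec_g hb 1) (dec_g hb' (Real.pi / (a0 * z))) (ft_g hb) 0
  have h3 : ((√3 : ℝ) : ℂ) ≠ 0 := by exact_mod_cast sqrt3_pos.ne'
  have h4 : ((√3 : ℝ) : ℂ) ^ 2 = 3 := by rw [sq]; exact_mod_cast sqrt3_sq
  have h5 : (Real.pi : ℂ) ≠ 0 := by exact_mod_cast hp.ne'
  have hz0 : z ≠ 0 := fun e => by simp [e] at hz
  have e0 : (a0 : ℂ) = 2 * Real.pi / (√3 : ℝ) := by rw [a0]; push_cast; rfl
  have e1 : ∀ m : O, 1 * cexp (-(a0 * z) * (‖toC m + 0‖ : ℂ) ^ 2) = cexp (-(a0 * z * N m)) :=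
    fun m => by rw [one_mul, add_zero, ← ofReal_pow, norm_toC_sq]; push_cast; ring_nf
  have e2 : ∀ m : O, ((2 / √3 : ℝ) : ℂ) * (Real.pi / (a0 * z) *
      cexp (-(4 * (Real.pi : ℂ) ^ 2 * ((a0 : ℂ) * z)⁻¹) * (‖toC m / toC lam‖ : ℂ) ^ 2) *
      ee (2 * (0 * (toC m / toC lam)).re)) = z⁻¹ * cexp (-(a0 * z⁻¹ * N m)) := fun m => by
    rw [zero_mul, zero_re, mul_zero, ee_zero, mul_one, ← ofReal_pow ‖_‖, norm_div_lam, ← mul_assoc]
    congr 1
    · rw [e0]; push_cast; field_simp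
    · congr 1
      rw [e0]; push_cast; field_simp
      rw [h4]; ring
  simpa only [e1, e2, Θ] using h

lemma theta_le {z : ℂ} (hz : 0 < z.re) : ‖Θ z - z⁻¹‖ ≤ th * (‖z‖ / z.re) := by
  have hi := inv_re_pos hz
  have hz0 : z ≠ 0 := fun e => by simp [e] at hz
  have h := hasSum_ite_sub_hasSum (theta hz) 0
  simp only [map_zero, Nat.cast_zero, mul_zero, neg_zero, Complex.exp_zero, mul_one] at h
  refine (h.norm_le_of_bounded ((summable_G_ne (inv_pos.2 hi)).hasSum.mul_left ‖z‖⁻¹)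
    fun m => ?_).trans ?_
  · split_ifs
    · simp
    · rw [norm_mul, norm_inv, norm_t, div_inv_eq_mul, mul_comm (N m : ℝ)]
  · refine (mul_le_mul_of_nonneg_left (tsum_G_ne_le (inv_pos.2 hi)) (by positivity)).trans_eq ?_
    have : ‖z‖ ≠ 0 := norm_ne_zero_iff.2 hz0
    rw [inv_re, normSq_eq_norm_sq]
    field_simp

/-- the weight on the vertical line -/
def wt (u : ℝ) : ℂ := cexp ((1 + u * I) ^ 2 / 4)

lemma norm_wt (u : ℝ) : ‖wt u‖ = Real.exp (1 / 4) * Real.exp (-(1 / 4) * u ^ 2) := by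
  rw [wt, Complex.norm_exp, ← Real.exp_add]
  congr 1
  simp [sq]
  ring

lemma int_wt : Integrable fun u : ℝ => ‖wt u‖ * (1 + |u|) := by
  have h1 := integrable_exp_neg_mul_sq (b := 1 / 4) (by norm_num)
  have h2 := (integrable_mul_exp_neg_mul_sq (b := 1 / 4) (by norm_num)).abs
  refine ((h1.add h2).const_mul (Real.exp (1 / 4))).congr (Filter.Eventually.of_forall fun u => ?_)
  simp only [Pi.add_apply, norm_wt, abs_mul, Real.abs_exp]
  ring

lemma cont_wt : Continuous wt := by unfold wt; fun_prop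

lemma int_bd {f : ℝ → ℂ} (hf : Continuous f) {B : ℝ} (h : ∀ u, ‖f u‖ ≤ B * (1 + |u|)) :
    Integrable fun u => wt u * f u :=
  (int_wt.const_mul B).mono' (cont_wt.mul hf).aestronglyMeasurable
    (Filter.Eventually.of_forall fun u => by
      rw [norm_mul, mul_left_comm]
      exact mul_le_mul_of_nonneg_left (h u) (norm_nonneg _))

/-- the normalising constant -/
def k0 : ℂ := ((Real.pi : ℂ) / -(-(1 / 4))) ^ (1 / 2 : ℂ)

lemma k0_ne : k0 ≠ 0 := by
  have : (Real.pi : ℂ) ≠ 0 := by exact_mod_cast Real.pi_pos.ne'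
  simp [k0, this]

lemma gauss (y : ℝ) : ∫ u : ℝ, wt u * cexp (-((1 + u * I) * y)) = k0 * cexp (-(y : ℂ) ^ 2) := by
  have h := integral_cexp_quadratic (b := -(1 / 4)) (by norm_num) (I / 2 - I * y) (1 / 4 - y)
  refine Eq.trans (integral_congr_ae (Filter.Eventually.of_forall fun u => ?_)) (h.trans ?_)
  · simp only [wt, ← Complex.exp_add]
    congr 1
    linear_combination (u ^ 2 / 4 : ℂ) * I_sq
  · rw [k0]
    congr 2
    linear_combination (1 / 2 - y : ℂ) ^ 2 * I_sq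

lemma one_ne (u : ℝ) : (1 + u * I : ℂ) ≠ 0 := fun e => by simpa using congrArg re e

lemma norm_one_le (u : ℝ) : ‖(1 + u * I : ℂ)‖ ≤ 1 + |u| :=
  (norm_add_le _ _).trans (by simp)

lemma main : ∃ (k : ℂ) (C : ℝ), ∀ Y : ℝ, 0 < Y →
    ‖((∑' t : O, Real.exp (-(N t / Y) ^ 2) : ℝ) : ℂ) - Y * k‖ ≤ C := by
  have ha := Pool.Agent.P.MP_26a8c3_nt.QO.a0_pos
  refine ⟨k0⁻¹ * (a0 * ∫ u : ℝ, wt u * (1 + u * I)⁻¹),
    ‖k0⁻¹‖ * ∫ u : ℝ, th * (‖wt u‖ * (1 + |u|)), fun Y hY => ?_⟩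
  have hs : 0 < (a0 * Y)⁻¹ := by positivity
  have ha' : (a0 : ℂ) ≠ 0 := by exact_mod_cast ha.ne'
  have hY' : (Y : ℂ) ≠ 0 := by exact_mod_cast hY.ne'
  set z : ℝ → ℂ := fun u => ((a0 * Y)⁻¹ : ℝ) * (1 + u * I) with hz
  have zr : ∀ u, (z u).re = (a0 * Y)⁻¹ := fun u => by rw [hz, re_ofReal_mul]; simp
  have zc : Continuous z := by fun_prop
  have e1 : ∀ (t : O) (u : ℝ), cexp (-(a0 * z u * N t)) = cexp (-((1 + u * I) * (N t / Y : ℝ))) :=
    fun t u => by rw [hz]; push_cast; congr 1; field_simp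
  have b1 : ∀ (t : O) (u : ℝ), ‖cexp (-(a0 * z u * N t))‖ = G ((a0 * Y)⁻¹ * N t) :=
    fun t u => by rw [norm_t, zr]
  have sG := summable_G' hs
  have i1 : ∀ t : O, Integrable fun u : ℝ => wt u * cexp (-(a0 * z u * N t)) := fun t =>
    int_bd (by fun_prop) (B := G ((a0 * Y)⁻¹ * N t)) fun u => by
      rw [b1]; exact le_mul_of_one_le_right (Th.G_pos _).le (by linarith [abs_nonneg u])
  have h1 := integral_tsum_of_summable_integral_norm i1 (by
    simp only [norm_mul, b1, integral_mul_const]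
    exact sG.mul_left _)
  have tc : Continuous fun u => Θ (z u) :=
    continuous_tsum (fun t => by fun_prop) sG fun t u => (b1 t u).le
  have i2 : Integrable fun u : ℝ => wt u * (1 + u * I)⁻¹ :=
    int_bd (Continuous.inv₀ (by fun_prop) one_ne) (B := 1) fun u => by
      rw [norm_inv, one_mul]
      refine (inv_le_one_of_one_le₀ ?_).trans (by linarith [abs_nonneg u])
      simpa using re_le_norm (1 + u * I : ℂ)
  have b2 : ∀ u, ‖Θ (z u) - (z u)⁻¹‖ ≤ th * (1 + |u|) := fun u => by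
    refine (theta_le (by rw [zr]; exact hs)).trans (mul_le_mul_of_nonneg_left ?_
      (by linarith [one_le_th]))
    rw [zr, hz, norm_mul, norm_real, Real.norm_of_nonneg hs.le, mul_div_cancel_left₀ _ hs.ne']
    exact norm_one_le u
  have zi : ∀ u, (z u)⁻¹ = a0 * Y * (1 + u * I)⁻¹ := fun u => by
    rw [hz]; push_cast; rw [mul_inv, inv_inv]
  have i3 : Integrable fun u : ℝ => wt u * (Θ (z u) - (z u)⁻¹) :=
    int_bd (tc.sub (zc.inv₀ fun u e => by simpa [e, hs.ne] using (zr u).trans_ne hs.ne')) b2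
  have h2 : ∫ u : ℝ, wt u * Θ (z u) =
      (∫ u : ℝ, wt u * (Θ (z u) - (z u)⁻¹)) + a0 * Y * ∫ u : ℝ, wt u * (1 + u * I)⁻¹ := by
    rw [← integral_const_mul, ← integral_add i3 (i2.const_mul _)]
    refine integral_congr_ae (Filter.Eventually.of_forall fun u => ?_)
    simp only [zi]
    ring
  simp only [tsum_mul_left] at h1
  simp only [e1, gauss, tsum_mul_left] at h1
  have h3 : ((∑' t : O, Real.exp (-(N t / Y) ^ 2) : ℝ) : ℂ) = k0⁻¹ * ∫ u : ℝ, wt u * Θ (z u) := by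
    simp only [Θ, e1]
    rw [← h1, inv_mul_cancel_left₀ k0_ne, ofReal_tsum]
    push_cast
    rfl
  rw [h3, h2, show ∀ p q : ℂ, k0⁻¹ * (p + a0 * Y * q) - Y * (k0⁻¹ * (a0 * q)) = k0⁻¹ * p from
    fun p q => by ring, norm_mul]
  refine mul_le_mul_of_nonneg_left (norm_integral_le_of_norm_le (int_wt.const_mul th)
    (Filter.Eventually.of_forall fun u => ?_)) (norm_nonneg _)
  rw [norm_mul, mul_left_comm]
  exact mul_le_mul_of_nonneg_left (b2 u) (norm_nonneg _)

lemma th_le {V U : ℝ} (hV : 0 < V) (h : V ≤ U) (t : O) :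
    0 ≤ Th.th V t ∧ Th.th V t ≤ if t = 0 then 0 else G (N t / U) := by
  unfold Th.th
  split_ifs with ht
  · simp
  · refine ⟨(Th.G_pos _).le, G_anti ?_⟩
    have h1 := one_le_N ht
    exact div_le_div₀ (by positivity) (by nlinarith) hV h

end Psi

open Psi in
theorem pPsi : S_Psi := by
  obtain ⟨k, C, h⟩ := main
  have ha := Pool.Agent.P.MP_26a8c3_nt.QO.a0_pos
  have h0 : 0 ≤ C := (norm_nonneg _).trans (h 1 one_pos)
  have ht := one_le_th
  have sm : ∀ V, 0 < V → Summable (Th.th V) := fun V hV =>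
    Summable.of_nonneg_of_le (fun t => (th_le hV le_rfl t).1) (fun t => (th_le hV le_rfl t).2)
      (summable_G_ne hV)
  have h1 : ∀ V, 0 < V → |Ps (k.re / √a0) V| ≤ C + 1 := fun V hV => by
    have h2 := (Complex.abs_re_le_norm _).trans (h √(V / a0) (by positivity))
    rw [Complex.sub_re, Complex.ofReal_re, Complex.re_ofReal_mul] at h2
    have e1 : ∀ t : O, Real.exp (-(N t / √(V / a0)) ^ 2) = G ((N t : ℝ) ^ 2 / V) := fun t => by
      rw [div_pow, Real.sq_sqrt (by positivity), G]; congr 1; field_simp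
    simp only [e1] at h2
    rw [(Th0.summ ok hV).tsum_eq_add_tsum_ite 0, Real.sqrt_div hV.le] at h2
    simp only [map_zero, Nat.cast_zero, ne_eq, OfNat.ofNat_ne_zero, not_false_eq_true, zero_pow,
      zero_div, G_zero] at h2
    have e2 : Ps (k.re / √a0) V = (1 + (∑' t : O, if t = 0 then 0 else G ((N t : ℝ) ^ 2 / V)) -
        √V / √a0 * k.re) - 1 := by
      unfold Ps Th.th; ring
    rw [e2]
    exact (abs_sub _ _).trans (by rw [abs_one]; linarith)
  refine ⟨k.re / √a0, C + 1 + th + |k.re / √a0|, by positivity, fun V hV => ?_, fun V hV => ?_, ?_⟩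
  · linarith [h1 V hV, abs_nonneg (k.re / √a0)]
  · have hs := Real.sqrt_pos.2 hV
    rcases le_total 1 V with h2 | h2
    · have h3 := Real.one_le_sqrt.2 h2
      refine (h1 V hV).trans ?_
      nlinarith [abs_nonneg (k.re / √a0)]
    · have h3 : V ≤ √V := by
        rw [Real.le_sqrt hV.le hV.le]; nlinarith
      have h4 : ∑' t : O, Th.th V t ≤ th * V :=
        ((sm V hV).tsum_le_tsum (fun t => (th_le hV le_rfl t).2) (summable_G_ne hV)).trans
          (tsum_G_ne_le hV)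
      refine (abs_sub _ _).trans ?_
      rw [abs_of_nonneg (tsum_nonneg fun t => (th_le hV le_rfl t).1), abs_mul, abs_of_pos hs]
      nlinarith
  · refine Continuous.sub (continuous_iff_continuousAt.2 fun y => ?_) (by fun_prop)
    refine ContinuousOn.continuousAt (s := Set.Iic (y + 1)) (continuousOn_tsum (fun t => ?_)
      (summable_G_ne (Real.exp_pos (y + 1))) fun t x hx => ?_) (Iic_mem_nhds (by linarith))
    · unfold Th.th G
      split_ifs
      · exact continuousOn_const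
      · exact Continuous.continuousOn (by fun_prop (disch := intro x; positivity))
    · have h2 := th_le (Real.exp_pos x) (Real.exp_le_exp.2 hx) t
      rw [Real.norm_of_nonneg h2.1]
      exact h2.2

end

end Pool.Agent.P.MP_323ce2_nt.QS
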