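import Pool.Agent.P.MP_26a8c3_nt.QL.All

/-! Statements of the layer: the optimal quadratic large sieve on the Eisenstein integers. -/

namespace Pool.Agent.P.MP_323ce2_nt.QS

open Finset Pool.Agent.P.MP_26a8c3_nt.QO Pool.Agent.P.MP_26a8c3_nt.QL
open scoped Classical ComplexConjugate

noncomputable section

/-- the sum over nonzero squares minus its mean -/
def Ps (c V : ℝ) : ℝ := (∑' t : O, Th.th V t) - c * √V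

/-- the remainder is bounded -/
structure Gd (c C : ℝ) : Prop where
  pos : 0 < C
  one : ∀ V, 0 < V → |Ps c V| ≤ C
  sq : ∀ V, 0 < V → |Ps c V| ≤ C * √V
  cont : Continuous fun y : ℝ => Ps c (Real.exp y)

/-- the small squarefree parts -/
def Wk (K : ℝ) : Finset O := (ball K).filter Squarefree

/-- the error of the small squarefree parts -/
def Er (c K : ℝ) (a b : O) (V : ℝ) : ℂ :=
  ∑ v ∈ Wk K, eta a v * eta b v * ∑ d ∈ pdiv a, ∑ e ∈ pdiv b,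
    (1 / 6 * mu d * mu e * (Ps c (V / N v / (N (lcm d e) : ℝ) ^ 2) : ℝ))

/-- the same on the dual side -/
def ErD (c K P : ℝ) (a b : O) : ℂ :=
  ∑ e ∈ (pdiv a).filter (· ∣ b), ∑ f ∈ pdiv e, mu e * mu f * ((P * N f / √(N a * N b) : ℝ) : ℂ) *
    Er c K (quo a e) (quo b e) (N a * N b / (P * (N f : ℝ) ^ 2))

/-- the input for small squarefree parts -/
def HyK (K R β : ℝ) (M : ℝ → ℝ) : Prop :=
  ∀ V R1, 0 < V → V ≤ K → 0 < R1 → R1 ≤ R → LSB V R1 (β * (R1 + M V))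

/-- the growth of `M` against the square root -/
def Gr (K m : ℝ) (M : ℝ → ℝ) : Prop := ∀ V, 0 < V → V ≤ K → 0 ≤ M V ∧ M V ≤ m * √V

/-- the sieve with exponent `ξ` -/
def Hx (ξ : ℝ) : Prop :=
  ∀ ε : ℝ, 0 < ε → ∃ C : ℝ, 1 ≤ C ∧ ∀ P R : ℝ, 1 ≤ P → 1 ≤ R →
    LSB P R (C * (P * R) ^ ε * (P + R ^ ξ))

/-- the bound for the remainder -/
def S_Psi : Prop := ∃ c C : ℝ, Gd c C

/-- the exact splitting of the kernel -/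
def S_Spl : Prop :=
  ∀ c K : ℝ, ∃ mK : O → O → ℂ, ∀ (a b : O) (V : ℝ), SQO a → SQO b → 0 < V →
    Full a b V = eta a 0 * eta b 0 + BigS K a b V + (√V : ℝ) * mK a b + Er c K a b V

/-- the main terms cancel -/
def S_Ker : Prop :=
  ∀ (c K P : ℝ) (a b : O), 1 ≤ P → SQO a → SQO b → 4 ∣ a - b →
    ‖BigS K a b P - Dual K P a b - ErD c K P a b + Er c K a b P‖ ≤
      if a = b then (dv a + 1) * P else 0

/-- one weighted mean square -/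
def S_One : Prop :=
  ∃ C : ℝ, 0 < C ∧ ∀ (K R β m Y R1 D : ℝ) (M : ℝ → ℝ) (S : Finset O) (a : O → ℂ) (φ : O → ℝ),
    1 ≤ K → 0 ≤ β → 0 ≤ m → 0 ≤ Y → 0 < R1 → R1 ≤ R → 1 ≤ D → HyK K R β M → Gr K m M →
    In S (R1 / D) → (∀ v, v ≠ 0 → φ v ≤ 1 ∧ φ v * (√(N v) * D) ≤ Y) →
    ∑ v ∈ Wk K, φ v * ‖U S a v‖ ^ 2 ≤ C * (1 + Real.log K) * β * (m * Y + R1) / D * nr S a

/-- the bilinear bound for the error -/
def S_Bil : Prop :=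
  ∀ ε : ℝ, 0 < ε → ∃ C : ℝ, 0 < C ∧ ∀ (K R β m Y R1 : ℝ) (M : ℝ → ℝ) (S : Finset O)
    (a b : O → ℂ) (φ : O → O → O → ℂ),
    1 ≤ K → 1 ≤ R → K ≤ R ^ 2 → 0 ≤ β → 0 ≤ m → 0 ≤ Y → 0 < R1 → R1 ≤ R → HyK K R β M →
    Gr K m M → In S R1 →
    (∀ v d e, v ≠ 0 → d ≠ 0 → e ≠ 0 → ‖φ v d e‖ ≤ 1 ∧ ‖φ v d e‖ * (√(N v) * N d) ≤ Y ∧
      ‖φ v d e‖ * (√(N v) * N e) ≤ Y) →
    ‖∑ n ∈ S, ∑ n' ∈ S, a n * b n' * ∑ v ∈ Wk K, eta n v * eta n' v *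
      ∑ d ∈ pdiv n, ∑ e ∈ pdiv n', φ v d e‖ ≤
      C * R ^ ε * β * (m * Y + R1) * (nr S a + nr S b)

/-- the bound for the error with a fixed scale -/
def S_ErB : Prop :=
  ∀ c C0 : ℝ, Gd c C0 → ∀ ε : ℝ, 0 < ε → ∃ C : ℝ, 0 < C ∧ ∀ (K R β m V R1 : ℝ) (M : ℝ → ℝ)
    (S : Finset O) (a b : O → ℂ),
    1 ≤ K → 1 ≤ R → K ≤ R ^ 2 → 0 ≤ β → 0 ≤ m → 0 < V → 0 < R1 → R1 ≤ R → HyK K R β M →
    Gr K m M → In S R1 →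
    ‖∑ n ∈ S, ∑ n' ∈ S, a n * b n' * Er c K n n' V‖ ≤
      C * R ^ ε * β * (m * √V + R1) * (nr S a + nr S b)

/-- separation of variables by a double average -/
def S_Avg : Prop :=
  ∀ (S : Finset O) (x : O → ℝ) (g : O → O → ℝ → ℂ) (A X B : ℝ),
    (∀ n ∈ S, A - 1 ≤ x n ∧ x n ≤ A) → (∀ n ∈ S, ∀ n' ∈ S, Continuous (g n n')) →
    (∀ u v : ℝ, 0 ≤ u → u ≤ 1 → 0 ≤ v → v ≤ 1 →
      X ≤ (∑ n ∈ S, ∑ n' ∈ S, g n n' (x n - u + (x n' - v))).re) →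
    (∀ r s : ℝ, A - 2 ≤ r → r ≤ A → A - 2 ≤ s → s ≤ A →
      ‖∑ n ∈ S.filter (fun n => x n - 1 ≤ r ∧ r ≤ x n),
        ∑ n' ∈ S.filter (fun n => x n - 1 ≤ s ∧ s ≤ x n), g n n' (r + s)‖ ≤ B) →
    X ≤ 4 * B

/-- the separated dual error -/
def Gs (c K P : ℝ) (a b : O) (y : ℝ) : ℂ :=
  ∑ e ∈ (pdiv a).filter (· ∣ b), ∑ f ∈ pdiv e,
    mu e * mu f * ((P * N f * Real.exp (-(y / 2)) : ℝ) : ℂ) *
      Er c K (quo a e) (quo b e) (Real.exp y / (P * (N f : ℝ) ^ 2))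

/-- the bound for the separated dual error -/
def S_GsB : Prop :=
  ∀ c C0 : ℝ, Gd c C0 → ∀ ε : ℝ, 0 < ε → ∃ C : ℝ, 0 < C ∧ ∀ (K R β m P R0 y : ℝ) (M : ℝ → ℝ)
    (S : Finset O) (a b : O → ℂ),
    1 ≤ K → 1 ≤ R → K ≤ R ^ 2 → 0 ≤ β → 0 ≤ m → 1 ≤ P → 1 ≤ R0 → R0 ≤ R → HyK K R β M →
    Gr K m M → In S R0 → 2 * Real.log R0 - 4 ≤ y →
    ‖∑ n ∈ S, ∑ n' ∈ S, a n * b n' * Gs c K P n n' y‖ ≤
      C * R ^ ε * β * (m * √P + P) * (nr S a + nr S b)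

/-- one step -/
def S_Stp : Prop :=
  ∀ ε : ℝ, 0 < ε → ∃ C : ℝ, 1 ≤ C ∧ ∀ (K P R β m : ℝ) (M : ℝ → ℝ), 1 ≤ K → K ≤ R ^ 2 → K ≤ P →
    1 ≤ R → 1 ≤ β → 0 ≤ m → Sc M → Hy R β M → HyK K R β M → Gr K m M →
    LSB P R (C * R ^ ε * β * (P + R + √(P / K) * R + P / R * M (R ^ 2 / P) + m * √P))

/-- the improvement of the exponent -/
def S_Ind : Prop := ∀ ξ : ℝ, 1 ≤ ξ → ξ ≤ 2 → Hx ξ → Hx (2 - 1 / ξ)

/-- the optimal large sieve -/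
def S_Opt : Prop := Hx 1

/-- the optimal large sieve with the outer variable as the modulus -/
def S_OptF : Prop :=
  ∀ ε : ℝ, 0 < ε → ∃ C : ℝ, 0 < C ∧ ∀ (P R : ℝ) (S T : Finset O) (a : O → ℂ), 1 ≤ P → 1 ≤ R →
    (∀ n ∈ S, SQO n ∧ (N n : ℝ) ≤ R) → (∀ m ∈ T, SQO m ∧ (N m : ℝ) ≤ P) →
      ∑ m ∈ T, ‖∑ n ∈ S, a n * eta m n‖ ^ 2 ≤ C * (P * R) ^ ε * (P + R) * ∑ n ∈ S, ‖a n‖ ^ 2

end

end Pool.Agent.P.MP_323ce2_nt.QS
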